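import Pool.Agent.V11001.SI.Zeros
import Pool.Agent.H345R2.A2.Smooth

/-! Comparison of pair sums of zeros over nearby intervals and at nearby scales. -/

set_option autoImplicit false

open MeasureTheory Set Filter Topology

namespace Pool.Agent.V11001.SI.Pairs

open H370

/-- pair sum -/
noncomputable def Q (f : ℝ → ℝ) (a b : ℝ) : ℝ :=
  ∑ s ∈ Zf riemannZeta a b, ∑ s' ∈ Zf riemannZeta a b,
    (mult riemannZeta s : ℝ) * (mult riemannZeta s' : ℝ) * f (s.im - s'.im)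

lemma NN_sum {a b : ℝ} (ha : 1 ≤ a) : (NN riemannZeta a b : ℝ) = ∑ s ∈ Zf riemannZeta a b, (mult riemannZeta s : ℝ) := by
  rw [NN_eq good_zeta ha]
  push_cast
  rfl

/-- pair sums over nearby intervals -/
lemma compare : ∃ C : ℝ, 0 < C ∧ ∀ D : ℝ, 10 ≤ D → ∀ a c d b : ℝ, D ≤ a → a ≤ c → c ≤ d → d ≤ b → b ≤ 4 * D →
    ∀ (f : ℝ → ℝ) (K : ℝ), 0 ≤ K → (∀ x, |f x| ≤ K * (1 / (1 + x ^ 2))) →
      |Q f a b - Q f c d| ≤ 2 * K * C * Real.log D * (NN riemannZeta a c + NN riemannZeta d b) := by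
  classical
  obtain ⟨C, hC, hw⟩ := H370.A2.weight_sum good_zeta
  refine ⟨C, hC, fun D hD a c d b ha hac hcd hdb hb f K hK hf => ?_⟩
  have ha1 : 1 ≤ a := by linarith
  have hc1 : 1 ≤ c := by linarith
  have hlog : 0 ≤ Real.log D := Real.log_nonneg (by linarith)
  set S' := Zf riemannZeta a b with hS'
  set S := Zf riemannZeta c d with hS
  have hsub : S ⊆ S' := by
    intro s hs
    rw [hS, mem_Zf good_zeta hc1] at hs
    rw [hS', mem_Zf good_zeta ha1]
    obtain ⟨h1, h2, h3, h4, h5⟩ := hs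
    exact ⟨h1, h2, lt_of_le_of_lt hac h3, h4.trans hdb, h5⟩
  set F : ℂ → ℂ → ℝ := fun s s' => (mult riemannZeta s : ℝ) * (mult riemannZeta s' : ℝ) * f (s.im - s'.im) with hF
  have hFb : ∀ s s', |F s s'| ≤ (mult riemannZeta s : ℝ) * (K * ((mult riemannZeta s' : ℝ) *
      (1 / (1 + (s'.im - s.im) ^ 2)))) := by
    intro s s'
    have h1 := hf (s.im - s'.im)
    have e : (s.im - s'.im) ^ 2 = (s'.im - s.im) ^ 2 := by ring
    rw [e] at h1
    simp only [hF]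
    rw [abs_mul, abs_of_nonneg (by positivity : (0 : ℝ) ≤ (mult riemannZeta s : ℝ) * (mult riemannZeta s' : ℝ))]
    calc (mult riemannZeta s : ℝ) * (mult riemannZeta s' : ℝ) * |f (s.im - s'.im)| ≤
        (mult riemannZeta s : ℝ) * (mult riemannZeta s' : ℝ) * (K * (1 / (1 + (s'.im - s.im) ^ 2))) :=
          mul_le_mul_of_nonneg_left h1 (by positivity)
      _ = _ := by ring
  have e1 : Q f a b = ∑ s ∈ S' \ S, ∑ s' ∈ S', F s s' + ∑ s ∈ S, ∑ s' ∈ S', F s s' :=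
    (Finset.sum_sdiff hsub).symm
  have e2 : ∑ s ∈ S, ∑ s' ∈ S', F s s' = ∑ s ∈ S, ∑ s' ∈ S' \ S, F s s' + Q f c d := by
    have e3 : Q f c d = ∑ s ∈ S, ∑ s' ∈ S, F s s' := rfl
    rw [e3, ← Finset.sum_add_distrib]
    refine Finset.sum_congr rfl fun s _ => (Finset.sum_sdiff hsub).symm
  have e3 : ∑ s ∈ S, ∑ s' ∈ S' \ S, F s s' = ∑ s' ∈ S' \ S, ∑ s ∈ S, F s s' := Finset.sum_comm
  have b1 : |∑ s ∈ S' \ S, ∑ s' ∈ S', F s s'| ≤ ∑ s ∈ S' \ S, (mult riemannZeta s : ℝ) * (K * (C * Real.log D)) := by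
    refine (Finset.abs_sum_le_sum_abs _ _).trans (Finset.sum_le_sum fun s _ => ?_)
    refine (Finset.abs_sum_le_sum_abs _ _).trans ((Finset.sum_le_sum fun s' _ => hFb s s').trans ?_)
    rw [← Finset.mul_sum, ← Finset.mul_sum]
    exact mul_le_mul_of_nonneg_left (mul_le_mul_of_nonneg_left (hw D hD a b ha hb s.im) hK) (Nat.cast_nonneg _)
  have b2 : |∑ s' ∈ S' \ S, ∑ s ∈ S, F s s'| ≤ ∑ s ∈ S' \ S, (mult riemannZeta s : ℝ) * (K * (C * Real.log D)) := by
    refine (Finset.abs_sum_le_sum_abs _ _).trans (Finset.sum_le_sum fun s _ => ?_)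
    have hFb' : ∀ s' ∈ S, |F s' s| ≤ (mult riemannZeta s : ℝ) * (K * ((mult riemannZeta s' : ℝ) *
      (1 / (1 + (s'.im - s.im) ^ 2)))) := by
      intro s' _
      have h1 := hf (s'.im - s.im)
      simp only [hF]
      rw [abs_mul, abs_of_nonneg (by positivity : (0 : ℝ) ≤ (mult riemannZeta s' : ℝ) * (mult riemannZeta s : ℝ))]
      calc (mult riemannZeta s' : ℝ) * (mult riemannZeta s : ℝ) * |f (s'.im - s.im)| ≤
          (mult riemannZeta s' : ℝ) * (mult riemannZeta s : ℝ) * (K * (1 / (1 + (s'.im - s.im) ^ 2))) :=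
            mul_le_mul_of_nonneg_left h1 (by positivity)
        _ = _ := by ring
    refine (Finset.abs_sum_le_sum_abs _ _).trans ((Finset.sum_le_sum hFb').trans ?_)
    rw [← Finset.mul_sum, ← Finset.mul_sum]
    exact mul_le_mul_of_nonneg_left (mul_le_mul_of_nonneg_left (hw D hD c d (ha.trans hac) (hdb.trans hb) s.im) hK)
      (Nat.cast_nonneg _)
  have hcount : ∑ s ∈ S' \ S, (mult riemannZeta s : ℝ) = NN riemannZeta a c + NN riemannZeta d b := by
    have h1 : ∑ s ∈ S' \ S, (mult riemannZeta s : ℝ) + ∑ s ∈ S, (mult riemannZeta s : ℝ) =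
        ∑ s ∈ S', (mult riemannZeta s : ℝ) := Finset.sum_sdiff hsub
    rw [← NN_sum ha1, ← NN_sum hc1] at h1
    have h2 : NN riemannZeta a b = NN riemannZeta a c + NN riemannZeta c b := NN_add good_zeta ha1 hac (hcd.trans hdb)
    have h3 : NN riemannZeta c b = NN riemannZeta c d + NN riemannZeta d b := NN_add good_zeta hc1 hcd hdb
    have h4 : (NN riemannZeta a b : ℝ) = NN riemannZeta a c + (NN riemannZeta c d + NN riemannZeta d b) := by
      rw [h2, h3]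
      push_cast
      ring
    linarith
  have e4 : Q f a b - Q f c d = ∑ s ∈ S' \ S, ∑ s' ∈ S', F s s' + ∑ s' ∈ S' \ S, ∑ s ∈ S, F s s' := by
    rw [e1, e2, e3]
    ring
  rw [e4]
  refine (abs_add_le _ _).trans ((add_le_add b1 b2).trans ?_)
  rw [← Finset.sum_mul, hcount]
  apply le_of_eq
  ring

/-- pair sums at nearby scales -/
lemma rescale : ∃ C : ℝ, 0 < C ∧ ∀ D : ℝ, 10 ≤ D → ∀ a b : ℝ, D ≤ a → b ≤ 4 * D →
    ∀ (f g : ℝ → ℝ) (K : ℝ), 0 ≤ K → (∀ x, |f x - g x| ≤ K * (1 / (1 + x ^ 2))) →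
      |Q f a b - Q g a b| ≤ K * C * Real.log D * NN riemannZeta a b := by
  classical
  obtain ⟨C, hC, hw⟩ := H370.A2.weight_sum good_zeta
  refine ⟨C, hC, fun D hD a b ha hb f g K hK hf => ?_⟩
  have ha1 : 1 ≤ a := by linarith
  have e1 : Q f a b - Q g a b = ∑ s ∈ Zf riemannZeta a b, ∑ s' ∈ Zf riemannZeta a b,
      (mult riemannZeta s : ℝ) * (mult riemannZeta s' : ℝ) * (f (s.im - s'.im) - g (s.im - s'.im)) := by
    unfold Q
    rw [← Finset.sum_sub_distrib]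
    refine Finset.sum_congr rfl fun s _ => ?_
    rw [← Finset.sum_sub_distrib]
    refine Finset.sum_congr rfl fun s' _ => ?_
    ring
  rw [e1, NN_sum ha1, Finset.mul_sum]
  refine (Finset.abs_sum_le_sum_abs _ _).trans (Finset.sum_le_sum fun s _ => ?_)
  have hb' : ∀ s' ∈ Zf riemannZeta a b, |(mult riemannZeta s : ℝ) * (mult riemannZeta s' : ℝ) *
      (f (s.im - s'.im) - g (s.im - s'.im))| ≤ (mult riemannZeta s : ℝ) * (K * ((mult riemannZeta s' : ℝ) *
      (1 / (1 + (s'.im - s.im) ^ 2)))) := by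
    intro s' _
    have h1 := hf (s.im - s'.im)
    have e : (s.im - s'.im) ^ 2 = (s'.im - s.im) ^ 2 := by ring
    rw [e] at h1
    rw [abs_mul, abs_of_nonneg (by positivity : (0 : ℝ) ≤ (mult riemannZeta s : ℝ) * (mult riemannZeta s' : ℝ))]
    calc (mult riemannZeta s : ℝ) * (mult riemannZeta s' : ℝ) * |f (s.im - s'.im) - g (s.im - s'.im)| ≤
        (mult riemannZeta s : ℝ) * (mult riemannZeta s' : ℝ) * (K * (1 / (1 + (s'.im - s.im) ^ 2))) :=
          mul_le_mul_of_nonneg_left h1 (by positivity)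
      _ = _ := by ring
  refine (Finset.abs_sum_le_sum_abs _ _).trans ((Finset.sum_le_sum hb').trans ?_)
  rw [← Finset.mul_sum, ← Finset.mul_sum]
  calc (mult riemannZeta s : ℝ) * (K * ∑ s' ∈ Zf riemannZeta a b, (mult riemannZeta s' : ℝ) *
        (1 / (1 + (s'.im - s.im) ^ 2))) ≤ (mult riemannZeta s : ℝ) * (K * (C * Real.log D)) :=
        mul_le_mul_of_nonneg_left (mul_le_mul_of_nonneg_left (hw D hD a b ha hb s.im) hK) (Nat.cast_nonneg _)
    _ = _ := by ring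

/-- decay of the scaled test function -/
lemma decay {r : ℝ → ℝ} {C₁ C₂ : ℝ} (h1 : ∀ x, |r x| ≤ C₁) (h2 : ∀ x, |r x| * x ^ 2 ≤ C₂) {L : ℝ} (hL : 7 ≤ L) (d : ℝ) :
    |r (d * L / (2 * Real.pi))| ≤ (C₁ + C₂) * (1 / (1 + d ^ 2)) := by
  have hpi := Real.pi_pos
  have hpi2 : 2 * Real.pi ≤ 7 := by
    have := Real.pi_lt_d2
    linarith
  rw [mul_one_div, le_div_iff₀ (by positivity)]
  set x : ℝ := d * L / (2 * Real.pi) with hx
  have h3 : d ^ 2 ≤ x ^ 2 := by
    have e : x = d * (L / (2 * Real.pi)) := by rw [hx]; ring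
    rw [e, mul_pow]
    have h4 : 1 ≤ L / (2 * Real.pi) := by
      rw [le_div_iff₀ (by positivity)]
      linarith
    have h5 : 1 ≤ (L / (2 * Real.pi)) ^ 2 := one_le_pow₀ h4
    nlinarith [sq_nonneg d]
  have h4 := mul_le_mul_of_nonneg_left h3 (abs_nonneg (r x))
  have h5 := h1 x
  have h6 := h2 x
  linarith

/-- two scales -/
lemma two_scales {r : ℝ → ℝ} {C₂ K₁ : ℝ} (hC₂ : 0 ≤ C₂) (hK₁ : 0 ≤ K₁) (h2 : ∀ x, |r x| * x ^ 2 ≤ C₂)
    (h3 : ∀ x y, |r x - r y| ≤ K₁ * |x - y|) {L L' : ℝ} (hL : 7 ≤ L) (hLL : |L - L'| ≤ 1 / L ^ 2) (d : ℝ) :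
    |r (d * L / (2 * Real.pi)) - r (d * L' / (2 * Real.pi))| ≤
      ((2 * K₁ + 40 * Real.pi ^ 2 * C₂) / L ^ 2) * (1 / (1 + d ^ 2)) := by
  have hpi := Real.pi_pos
  have hpi3 := Real.pi_gt_three
  have hL0 : 0 < L := by linarith
  have hL2 : 0 < L ^ 2 := by positivity
  rw [div_mul_div_comm, mul_one, le_div_iff₀ (by positivity)]
  have hL'2 : L / 2 ≤ L' := by
    have h4 := (abs_le.1 hLL).2
    have h5 : 1 / L ^ 2 ≤ 1 := by
      rw [div_le_one hL2]
      nlinarith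
    linarith
  have hL'0 : 0 < L' := by linarith
  rcases le_or_gt (d ^ 2) 1 with hd | hd
  · have h4 := h3 (d * L / (2 * Real.pi)) (d * L' / (2 * Real.pi))
    have e : d * L / (2 * Real.pi) - d * L' / (2 * Real.pi) = d * (L - L') / (2 * Real.pi) := by ring
    rw [e, abs_div, abs_mul, abs_of_pos (show 0 < 2 * Real.pi by positivity)] at h4
    have hd1 : |d| ≤ 1 := by
      rw [← sq_abs] at hd
      nlinarith [abs_nonneg d]
    have h5 : |d| * |L - L'| / (2 * Real.pi) ≤ 1 / L ^ 2 := by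
      rw [div_le_iff₀ (by positivity)]
      calc |d| * |L - L'| ≤ 1 * (1 / L ^ 2) := mul_le_mul hd1 hLL (abs_nonneg _) zero_le_one
        _ ≤ 1 / L ^ 2 * (2 * Real.pi) := by
            rw [mul_comm]
            exact mul_le_mul_of_nonneg_left (by linarith) (by positivity)
    have h6 : |r (d * L / (2 * Real.pi)) - r (d * L' / (2 * Real.pi))| ≤ K₁ * (1 / L ^ 2) :=
      h4.trans (mul_le_mul_of_nonneg_left h5 hK₁)
    calc |r (d * L / (2 * Real.pi)) - r (d * L' / (2 * Real.pi))| * (L ^ 2 * (1 + d ^ 2)) ≤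
        K₁ * (1 / L ^ 2) * (L ^ 2 * 2) := by
          apply mul_le_mul h6 _ (by positivity) (by positivity)
          exact mul_le_mul_of_nonneg_left (by linarith) hL2.le
      _ = 2 * K₁ := by
          field_simp
      _ ≤ 2 * K₁ + 40 * Real.pi ^ 2 * C₂ := by
          have : 0 ≤ 40 * Real.pi ^ 2 * C₂ := by positivity
          linarith
  · have h4 := h2 (d * L / (2 * Real.pi))
    have h5 := h2 (d * L' / (2 * Real.pi))
    have e1 : (d * L / (2 * Real.pi)) ^ 2 = d ^ 2 * L ^ 2 / (4 * Real.pi ^ 2) := by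
      rw [div_pow, mul_pow]
      congr 1
      ring
    have e2 : (d * L' / (2 * Real.pi)) ^ 2 = d ^ 2 * L' ^ 2 / (4 * Real.pi ^ 2) := by
      rw [div_pow, mul_pow]
      congr 1
      ring
    rw [e1, mul_div_assoc', div_le_iff₀ (by positivity)] at h4
    rw [e2, mul_div_assoc', div_le_iff₀ (by positivity)] at h5
    have h6 : L ^ 2 ≤ 4 * L' ^ 2 := by nlinarith
    have h7 : |r (d * L' / (2 * Real.pi))| * (d ^ 2 * L ^ 2) ≤ 4 * (C₂ * (4 * Real.pi ^ 2)) := by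
      calc |r (d * L' / (2 * Real.pi))| * (d ^ 2 * L ^ 2) ≤ |r (d * L' / (2 * Real.pi))| * (d ^ 2 * (4 * L' ^ 2)) := by
            apply mul_le_mul_of_nonneg_left _ (abs_nonneg _)
            exact mul_le_mul_of_nonneg_left h6 (sq_nonneg d)
        _ = 4 * (|r (d * L' / (2 * Real.pi))| * (d ^ 2 * L' ^ 2)) := by ring
        _ ≤ _ := by linarith
    have h8 : |r (d * L / (2 * Real.pi)) - r (d * L' / (2 * Real.pi))| ≤
        |r (d * L / (2 * Real.pi))| + |r (d * L' / (2 * Real.pi))| := abs_sub _ _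
    have h9 : L ^ 2 * (1 + d ^ 2) ≤ 2 * (d ^ 2 * L ^ 2) := by nlinarith
    calc |r (d * L / (2 * Real.pi)) - r (d * L' / (2 * Real.pi))| * (L ^ 2 * (1 + d ^ 2)) ≤
        (|r (d * L / (2 * Real.pi))| + |r (d * L' / (2 * Real.pi))|) * (2 * (d ^ 2 * L ^ 2)) :=
          mul_le_mul h8 h9 (by positivity) (by positivity)
      _ = 2 * (|r (d * L / (2 * Real.pi))| * (d ^ 2 * L ^ 2) + |r (d * L' / (2 * Real.pi))| * (d ^ 2 * L ^ 2)) := by ring
      _ ≤ 2 * (C₂ * (4 * Real.pi ^ 2) + 4 * (C₂ * (4 * Real.pi ^ 2))) := by linarith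
      _ = 40 * Real.pi ^ 2 * C₂ := by ring
      _ ≤ 2 * K₁ + 40 * Real.pi ^ 2 * C₂ := by linarith

end Pool.Agent.V11001.SI.Pairs
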