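import Pool.Agent.Results.MP_103a5c_nt.AlmostAllShortPairs
import Pool.Agent.V11001.SI.Pairs

/-! Normalised pair sums over nearby intervals and at nearby scales. -/

set_option autoImplicit false
set_option maxHeartbeats 4000000

open Filter Topology MeasureTheory Set

namespace Pool.Agent.V11001.SI.Pairs

open Pool.Agent.V11001.SI
open Pool.Agent.Results.MP_103a5c_nt
open Pool.Agent.Results.MP_103a5c_nt.AlmostAllShortPairs (P M Test)

/-- the pair sum of the starting file -/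
lemma P_eq_Q (r : ℝ → ℝ) {t H T : ℝ} (ht : 1 ≤ t) :
    P r t H T = (H * Real.log T / (2 * Real.pi))⁻¹ * Q (fun d => r (d * Real.log T / (2 * Real.pi))) t (t + H) := by
  unfold P AlmostAllShortPairs.pairs Q
  congr 1
  rw [AlmostAllShortPairs.zeros_eq, H370.finsum_Zf H370.good_zeta ht]
  refine Finset.sum_congr rfl fun s _ => ?_
  rw [H370.finsum_Zf H370.good_zeta ht]
  rfl

/-- test functions are bounded and Lipschitz -/
lemma test_bounds {μ : ℝ} (hμ : 0 < μ) {r : ℝ → ℝ} (hr : Test μ r) :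
    ∃ C₁ C₂ K₁ : ℝ, 0 ≤ C₁ ∧ 0 ≤ C₂ ∧ 0 ≤ K₁ ∧ (∀ x, |r x| ≤ C₁) ∧ (∀ x, |r x| * x ^ 2 ≤ C₂) ∧
      ∀ x y, |r x - r y| ≤ K₁ * |x - y| := by
  obtain ⟨ψ, ⟨K, hK⟩, -, hr, C, hC⟩ := hr
  have hK0 : 0 ≤ K := by
    have h1 := hK 1 0
    have h2 := abs_nonneg (ψ 1 - ψ 0)
    simp at h1
    linarith
  have hψc : Continuous ψ := by
    have : LipschitzWith K.toNNReal ψ := by
      refine LipschitzWith.of_dist_le_mul fun x y => ?_
      rw [Real.dist_eq, Real.dist_eq, Real.coe_toNNReal _ hK0]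
      exact hK x y
    exact this.continuous
  have hC0 : 0 ≤ C := by
    have h1 := hC 0
    have h2 : |r 0| * (0 : ℝ) ^ 2 = 0 := by norm_num
    linarith
  obtain ⟨B, hB⟩ : ∃ B : ℝ, ∀ α ∈ Icc (-μ) μ, |ψ α| ≤ B := by
    obtain ⟨B, hB⟩ := isCompact_Icc.exists_bound_of_continuousOn (hψc.continuousOn (s := Icc (-μ) μ))
    exact ⟨B, fun α hα => by simpa [Real.norm_eq_abs] using hB α hα⟩
  have hB0 : 0 ≤ B := (abs_nonneg _).trans (hB 0 ⟨by linarith, hμ.le⟩)
  have hmem : ∀ α ∈ Set.uIoc (-μ) μ, α ∈ Icc (-μ) μ := by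
    intro α hα
    rw [Set.uIoc_of_le (by linarith)] at hα
    exact ⟨hα.1.le, hα.2⟩
  refine ⟨B * |μ - -μ|, C, B * (2 * Real.pi * μ) * |μ - -μ|, by positivity, hC0, by positivity, fun x => ?_, hC,
    fun x y => ?_⟩
  · rw [hr x, ← Real.norm_eq_abs]
    refine intervalIntegral.norm_integral_le_of_norm_le_const fun α hα => ?_
    rw [Real.norm_eq_abs, abs_mul]
    calc |ψ α| * |Real.cos (2 * Real.pi * α * x)| ≤ B * 1 :=
          mul_le_mul (hB α (hmem α hα)) (Real.abs_cos_le_one _) (abs_nonneg _) hB0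
      _ = B := mul_one B
  · have hi : ∀ z : ℝ, IntervalIntegrable (fun α => ψ α * Real.cos (2 * Real.pi * α * z)) volume (-μ) μ := fun z =>
      (hψc.mul (Real.continuous_cos.comp (by fun_prop))).intervalIntegrable _ _
    rw [hr x, hr y, ← intervalIntegral.integral_sub (hi x) (hi y), ← Real.norm_eq_abs]
    have h1 : ∀ α ∈ Set.uIoc (-μ) μ, ‖ψ α * Real.cos (2 * Real.pi * α * x) - ψ α * Real.cos (2 * Real.pi * α * y)‖ ≤
        B * (2 * Real.pi * μ) * |x - y| := by
      intro α hα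
      have hα' := hmem α hα
      rw [← mul_sub, Real.norm_eq_abs, abs_mul]
      have hαμ : |α| ≤ μ := abs_le.2 hα'
      have h2 : |Real.cos (2 * Real.pi * α * x) - Real.cos (2 * Real.pi * α * y)| ≤ 2 * Real.pi * μ * |x - y| := by
        have h3 : |Real.cos (2 * Real.pi * α * x) - Real.cos (2 * Real.pi * α * y)| ≤
            |2 * Real.pi * α * x - 2 * Real.pi * α * y| := Real.abs_cos_sub_cos_le _ _
        refine h3.trans ?_
        rw [← mul_sub, abs_mul, abs_mul, abs_of_pos (show (0 : ℝ) < 2 * Real.pi by positivity)]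
        gcongr
      calc |ψ α| * |Real.cos (2 * Real.pi * α * x) - Real.cos (2 * Real.pi * α * y)| ≤
          B * (2 * Real.pi * μ * |x - y|) := mul_le_mul (hB α hα') h2 (abs_nonneg _) hB0
        _ = _ := by ring
    have h4 := intervalIntegral.norm_integral_le_of_norm_le_const h1
    calc _ ≤ B * (2 * Real.pi * μ) * |x - y| * |μ - -μ| := h4
      _ = _ := by ring

lemma union_bound (S : ℕ → ℕ → Set ℝ) (K J : ℕ) {V : ℝ}
    (h : ∀ k, k ≤ K → ∀ j, j ≤ J → volume (S k j) ≤ ENNReal.ofReal V) :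
    volume {t : ℝ | ∃ k, k ≤ K ∧ ∃ j, j ≤ J ∧ t ∈ S k j} ≤ ENNReal.ofReal (((K : ℝ) + 1) * ((J : ℝ) + 1) * V) := by
  classical
  have hsub : {t : ℝ | ∃ k, k ≤ K ∧ ∃ j, j ≤ J ∧ t ∈ S k j} ⊆
      ⋃ p ∈ Finset.range (K + 1) ×ˢ Finset.range (J + 1), S p.1 p.2 := by
    rintro t ⟨k, hk, j, hj, ht⟩
    simp only [mem_iUnion]
    refine ⟨(k, j), ?_, ht⟩
    rw [Finset.mem_product, Finset.mem_range, Finset.mem_range]
    exact ⟨by simpa using Nat.lt_succ_of_le hk, by simpa using Nat.lt_succ_of_le hj⟩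
  refine (measure_mono hsub).trans ((measure_biUnion_finset_le _ _).trans ?_)
  have h1 : ∑ p ∈ Finset.range (K + 1) ×ˢ Finset.range (J + 1), volume (S p.1 p.2) ≤
      ∑ _p ∈ Finset.range (K + 1) ×ˢ Finset.range (J + 1), ENNReal.ofReal V := by
    refine Finset.sum_le_sum fun p hp => ?_
    rw [Finset.mem_product, Finset.mem_range, Finset.mem_range] at hp
    exact h p.1 (by omega) p.2 (by omega)
  refine h1.trans ?_
  rw [Finset.sum_const, Finset.card_product, Finset.card_range, Finset.card_range, nsmul_eq_mul,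
    ← ENNReal.ofReal_natCast, ← ENNReal.ofReal_mul (by positivity)]
  push_cast
  exact le_rfl

/-- the comparison of the normalised sums -/
lemma arith {Q₂ Q₁ Q' N N' m ε e₁ e₂ e₃ : ℝ} (h1 : |Q₂ - Q₁| ≤ e₁) (h2 : |Q₁ - Q'| ≤ e₂) (h3 : |N'⁻¹ * Q' - m| ≤ ε / 4)
    (hN' : 0 < N') (hNN : N' ≤ N) (h4 : N - N' ≤ e₃) (h5 : e₁ ≤ ε / 4 * N) (h6 : e₂ ≤ ε / 4 * N)
    (h7 : e₃ * |m| ≤ ε / 4 * N) : |N⁻¹ * Q₂ - m| ≤ ε := by
  have hN : 0 < N := hN'.trans_le hNN
  have e1 : |Q' - N' * m| ≤ ε / 4 * N' := by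
    have e : Q' - N' * m = N' * (N'⁻¹ * Q' - m) := by
      rw [mul_sub, mul_inv_cancel_left₀ hN'.ne']
    rw [e, abs_mul, abs_of_pos hN', mul_comm]
    exact mul_le_mul_of_nonneg_right h3 hN'.le
  have hε : 0 ≤ ε / 4 := (abs_nonneg _).trans h3
  have e2 : |Q' - N' * m| ≤ ε / 4 * N := e1.trans (mul_le_mul_of_nonneg_left hNN hε)
  have e3 : |(N - N') * m| ≤ ε / 4 * N := by
    rw [abs_mul, abs_of_nonneg (by linarith)]
    exact (mul_le_mul_of_nonneg_right h4 (abs_nonneg _)).trans h7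
  have e4 : |Q₂ - N * m| ≤ ε * N := by
    have e : Q₂ - N * m = (Q₂ - Q₁) + (Q₁ - Q') + (Q' - N' * m) - (N - N') * m := by ring
    rw [e]
    calc |(Q₂ - Q₁) + (Q₁ - Q') + (Q' - N' * m) - (N - N') * m| ≤
        |(Q₂ - Q₁) + (Q₁ - Q') + (Q' - N' * m)| + |(N - N') * m| := abs_sub _ _
      _ ≤ |Q₂ - Q₁| + |Q₁ - Q'| + |Q' - N' * m| + |(N - N') * m| := by
          have := abs_add_le (Q₂ - Q₁ + (Q₁ - Q')) (Q' - N' * m)
          have := abs_add_le (Q₂ - Q₁) (Q₁ - Q')
          linarith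
      _ ≤ ε * N := by linarith
  have e : N⁻¹ * Q₂ - m = N⁻¹ * (Q₂ - N * m) := by
    rw [mul_sub, inv_mul_cancel_left₀ hN.ne']
  rw [e, abs_mul, abs_of_pos (inv_pos.2 hN), inv_mul_eq_div, div_le_iff₀ hN]
  exact e4

/-- from one good interval to a slightly longer one, at a slightly different scale -/
lemma step {μ : ℝ} (hμ : 0 < μ) {r : ℝ → ℝ} (hr : Test μ r) {ε : ℝ} (hε : 0 < ε) :
    ∃ B R₀ : ℝ, 0 < B ∧ ∀ i : ℕ, R₀ ≤ (2 : ℝ) ^ i → ∀ T D : ℝ, (2 : ℝ) ^ i ≤ T → (2 : ℝ) ^ i ≤ D →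
      |Real.log T - Real.log D| ≤ 1 / Real.log T ^ 2 → Real.log D ≤ Real.log T →
      ∀ a t c b h : ℝ, (2 : ℝ) ^ i ≤ a → a ≤ t → t < c → c ≤ b → b ≤ 2 ^ (i + 1) → 1 ≤ h → t - a ≤ h → b - c ≤ 3 * h →
        B * Real.log (2 ^ i) * h ≤ b - a → |P r t (c - t) D - M r| ≤ ε / 4 → |P r a (b - a) T - M r| ≤ ε := by
  obtain ⟨C₁, C₂, K₁, hC₁, hC₂, hK₁, b1, b2, b3⟩ := test_bounds hμ hr
  obtain ⟨C, hC, hcomp⟩ := compare
  obtain ⟨C', hC', hresc⟩ := rescale
  obtain ⟨Cu, hCu, hup⟩ := NN_upper H370.good_zeta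
  set K₂ : ℝ := 2 * K₁ + 40 * Real.pi ^ 2 * C₂ with hK₂
  have hpi := Real.pi_pos
  have hpi3 := Real.pi_gt_three
  have hK₂0 : 0 ≤ K₂ := by positivity
  -- constants
  set B : ℝ := 1 + (96 * Real.pi * (C₁ + C₂) * C * Cu + 32 * |M r|) / ε with hB
  have hB1 : 1 ≤ B := by
    have : 0 ≤ (96 * Real.pi * (C₁ + C₂) * C * Cu + 32 * |M r|) / ε := by positivity
    linarith
  obtain ⟨R₀, hR₀⟩ := (Real.tendsto_log_atTop.eventually_ge_atTop
    (7 + (16 * Real.pi * K₂ * C' * Cu + 8 * |M r|) / ε)).exists_forall_of_atTop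
  refine ⟨B, max R₀ 10, by linarith, fun i hi T D hT hD hTD hDT a t c b h ha hat htc hcb hb hh hta hbc hba hgood => ?_⟩
  set R : ℝ := (2 : ℝ) ^ i with hR
  have hR10 : 10 ≤ R := (le_max_right _ _).trans hi
  have hRlog := hR₀ R ((le_max_left _ _).trans hi)
  have hi2 : 2 ≤ i := by
    by_contra hcon
    have h1 : i ≤ 1 := by omega
    have h2 : R ≤ 2 ^ 1 := pow_le_pow_right₀ (by norm_num) h1
    norm_num at h2
    linarith
  have h2R : (2 : ℝ) ^ (i + 1) = 2 * R := by rw [pow_succ]; ring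
  have hR0 : 0 < R := by linarith
  set L : ℝ := Real.log T with hL
  set L' : ℝ := Real.log D with hL'
  have hRL' : Real.log R ≤ L' := Real.log_le_log hR0 hD
  have hRL : Real.log R ≤ L := Real.log_le_log hR0 hT
  have hfrac : 0 ≤ (16 * Real.pi * K₂ * C' * Cu + 8 * |M r|) / ε := by positivity
  have hRl7 : 7 ≤ Real.log R := by linarith
  have hL7 : 7 ≤ L := by linarith
  have hL'7 : 7 ≤ L' := by linarith
  have hba0 : h ≤ b - a := by
    refine le_trans ?_ hba
    have : 1 ≤ B * Real.log R := by nlinarith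
    nlinarith
  have hb2 : b ≤ 4 * R := by linarith
  have hbup : b ≤ 2 ^ (i + 1) := hb
  rw [P_eq_Q r (by linarith)] at hgood ⊢
  have et : t + (c - t) = c := by ring
  have ea : a + (b - a) = b := by ring
  rw [et] at hgood
  rw [ea]
  -- the two comparisons
  have q1 := hresc R hR10 a b ha hb2 (fun d => r (d * L / (2 * Real.pi))) (fun d => r (d * L' / (2 * Real.pi)))
    (K₂ / L ^ 2) (by positivity) (fun x => two_scales hC₂ hK₁ b2 b3 hL7 hTD x)
  have q2 := hcomp R hR10 a t c b ha hat htc.le hcb hb2 (fun d => r (d * L' / (2 * Real.pi))) (C₁ + C₂) (by positivity)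
    (fun x => decay b1 b2 hL'7 x)
  -- the counts
  have n1 : (H370.NN riemannZeta a b : ℝ) ≤ Cu * Real.log R * (2 * (b - a)) := by
    refine (hup i hi2 a b ha (by linarith) hb).trans ?_
    apply mul_le_mul_of_nonneg_left _ (by positivity)
    linarith
  have n2 : (H370.NN riemannZeta a t : ℝ) ≤ Cu * Real.log R * (2 * h) := by
    refine (hup i hi2 a t ha hat (by linarith)).trans ?_
    apply mul_le_mul_of_nonneg_left _ (by positivity)
    linarith
  have n3 : (H370.NN riemannZeta c b : ℝ) ≤ Cu * Real.log R * (4 * h) := by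
    refine (hup i hi2 c b (by linarith) hcb hb).trans ?_
    apply mul_le_mul_of_nonneg_left _ (by positivity)
    linarith
  have hlogR0 : 0 ≤ Real.log R := by linarith
  have hct0 : 0 < c - t := by linarith
  have hbapos : 0 < b - a := by linarith
  refine arith q1 q2 hgood (by positivity) ?_ (e₃ := ((b - a) / L ^ 2 + 4 * h * L) / (2 * Real.pi)) ?_ ?_ ?_ ?_
  · apply div_le_div_of_nonneg_right _ (by positivity)
    exact mul_le_mul (by linarith) hDT (by linarith) hbapos.le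
  · rw [div_sub_div_same]
    apply div_le_div_of_nonneg_right _ (by positivity)
    have e : (b - a) * L - (c - t) * L' = (b - a) * (L - L') + ((t - a) + (b - c)) * L' := by ring
    rw [e]
    have h1 : (b - a) * (L - L') ≤ (b - a) * (1 / L ^ 2) :=
      mul_le_mul_of_nonneg_left ((le_abs_self _).trans hTD) hbapos.le
    have h2 : ((t - a) + (b - c)) * L' ≤ 4 * h * L := by
      apply mul_le_mul (by linarith) hDT (by linarith) (by linarith)
    have e2 : (b - a) * (1 / L ^ 2) = (b - a) / L ^ 2 := by ring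
    linarith
  · -- scale change
    have h1 : K₂ / L ^ 2 * C' * Real.log R * (H370.NN riemannZeta a b : ℝ) ≤
        K₂ / L ^ 2 * C' * Real.log R * (Cu * Real.log R * (2 * (b - a))) :=
      mul_le_mul_of_nonneg_left n1 (by positivity)
    have h2 : K₂ / L ^ 2 * C' * Real.log R * (Cu * Real.log R * (2 * (b - a))) =
        2 * K₂ * C' * Cu * (b - a) * (Real.log R ^ 2 / L ^ 2) := by ring
    have h3 : Real.log R ^ 2 / L ^ 2 ≤ 1 := by
      rw [div_le_one (by positivity)]
      exact pow_le_pow_left₀ hlogR0 hRL 2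
    have h4 : 2 * K₂ * C' * Cu * (b - a) * (Real.log R ^ 2 / L ^ 2) ≤ 2 * K₂ * C' * Cu * (b - a) * 1 :=
      mul_le_mul_of_nonneg_left h3 (by positivity)
    have h5 : 16 * Real.pi * K₂ * C' * Cu ≤ ε * L := by
      have h6 : (16 * Real.pi * K₂ * C' * Cu) / ε ≤ L := by
        have h7 : (16 * Real.pi * K₂ * C' * Cu) / ε ≤ (16 * Real.pi * K₂ * C' * Cu + 8 * |M r|) / ε :=
          div_le_div_of_nonneg_right (by linarith [abs_nonneg (M r)]) hε.le
        linarith
      rw [div_le_iff₀ hε] at h6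
      linarith
    have h6 : ε / 4 * ((b - a) * L / (2 * Real.pi)) = (ε * L) * (b - a) / (8 * Real.pi) := by
      field_simp
      ring
    rw [h6, le_div_iff₀ (by positivity)]
    have h7 := mul_le_mul_of_nonneg_right h5 hbapos.le
    have h8 : 2 * K₂ * C' * Cu * (b - a) * 1 * (8 * Real.pi) = 16 * Real.pi * K₂ * C' * Cu * (b - a) := by ring
    have h9 := mul_le_mul_of_nonneg_right (h1.trans (h2.le.trans h4)) (show 0 ≤ 8 * Real.pi by positivity)
    linarith
  · -- the boundary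
    have h1 : 2 * (C₁ + C₂) * C * Real.log R * ((H370.NN riemannZeta a t : ℝ) + H370.NN riemannZeta c b) ≤
        2 * (C₁ + C₂) * C * Real.log R * (6 * Cu * Real.log R * h) := by
      apply mul_le_mul_of_nonneg_left _ (by positivity)
      linarith
    have h6 : ε / 4 * ((b - a) * L / (2 * Real.pi)) = (ε * (b - a)) * L / (8 * Real.pi) := by
      field_simp
      ring
    rw [h6, le_div_iff₀ (by positivity)]
    have h2 : 96 * Real.pi * (C₁ + C₂) * C * Cu ≤ ε * B := by
      have h7 : (96 * Real.pi * (C₁ + C₂) * C * Cu) / ε ≤ B := by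
        have h8 : (96 * Real.pi * (C₁ + C₂) * C * Cu) / ε ≤
            (96 * Real.pi * (C₁ + C₂) * C * Cu + 32 * |M r|) / ε :=
          div_le_div_of_nonneg_right (by linarith [abs_nonneg (M r)]) hε.le
        linarith
      rw [div_le_iff₀ hε] at h7
      linarith
    have h3 : ε * (B * Real.log R * h) ≤ ε * (b - a) := mul_le_mul_of_nonneg_left hba hε.le
    have h4 : 96 * Real.pi * (C₁ + C₂) * C * Cu * (Real.log R * h) ≤ ε * B * (Real.log R * h) :=
      mul_le_mul_of_nonneg_right h2 (by positivity)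
    have h5 : 96 * Real.pi * (C₁ + C₂) * C * Cu * (Real.log R * h) ≤ ε * (b - a) := by linarith
    calc 2 * (C₁ + C₂) * C * Real.log R * ((H370.NN riemannZeta a t : ℝ) + H370.NN riemannZeta c b) * (8 * Real.pi) ≤
        2 * (C₁ + C₂) * C * Real.log R * (6 * Cu * Real.log R * h) * (8 * Real.pi) :=
          mul_le_mul_of_nonneg_right h1 (by positivity)
      _ = 96 * Real.pi * (C₁ + C₂) * C * Cu * (Real.log R * h) * Real.log R := by ring
      _ ≤ ε * (b - a) * Real.log R := mul_le_mul_of_nonneg_right h5 hlogR0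
      _ ≤ ε * (b - a) * L := mul_le_mul_of_nonneg_left hRL (by positivity)
  · -- the main terms
    have h6 : ε / 4 * ((b - a) * L / (2 * Real.pi)) = (ε / 4 * (b - a) * L) / (2 * Real.pi) := by ring
    rw [h6, div_mul_eq_mul_div]
    apply div_le_div_of_nonneg_right _ (by positivity)
    have hm0 := abs_nonneg (M r)
    have h1 : 8 * |M r| ≤ ε * L := by
      have h7 : (8 * |M r|) / ε ≤ L := by
        have h8 : (8 * |M r|) / ε ≤ (16 * Real.pi * K₂ * C' * Cu + 8 * |M r|) / ε :=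
          div_le_div_of_nonneg_right (by
            have : 0 ≤ 16 * Real.pi * K₂ * C' * Cu := by positivity
            linarith) hε.le
        linarith
      rw [div_le_iff₀ hε] at h7
      linarith
    have h2 : 32 * |M r| ≤ ε * (B - 1) := by
      have h7 : (32 * |M r|) / ε ≤ B - 1 := by
        have h8 : (32 * |M r|) / ε ≤ (96 * Real.pi * (C₁ + C₂) * C * Cu + 32 * |M r|) / ε :=
          div_le_div_of_nonneg_right (by
            have : 0 ≤ 96 * Real.pi * (C₁ + C₂) * C * Cu := by positivity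
            linarith) hε.le
        linarith
      rw [div_le_iff₀ hε] at h7
      linarith
    have h3 : (b - a) / L ^ 2 * |M r| ≤ ε / 8 * (b - a) * L := by
      rw [div_mul_eq_mul_div, div_le_iff₀ (by positivity)]
      have h4 : (1 : ℝ) ≤ L ^ 2 := one_le_pow₀ (by linarith)
      have h5 : ε / 8 * L ≤ ε / 8 * L * L ^ 2 := le_mul_of_one_le_right (by positivity) h4
      have h7 : |M r| ≤ ε / 8 * L := by linarith
      calc (b - a) * |M r| ≤ (b - a) * (ε / 8 * L * L ^ 2) := mul_le_mul_of_nonneg_left (h7.trans h5) hbapos.le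
        _ = ε / 8 * (b - a) * L * L ^ 2 := by ring
    have h4 : 4 * h * L * |M r| ≤ ε / 8 * (b - a) * L := by
      have h5 : 32 * |M r| * h ≤ ε * (b - a) := by
        have e1 : (B - 1) * h ≤ b - a := by
          have e2 : (B - 1) * h ≤ B * Real.log R * h := by
            apply mul_le_mul_of_nonneg_right _ (by linarith)
            nlinarith
          linarith
        calc 32 * |M r| * h ≤ ε * (B - 1) * h := mul_le_mul_of_nonneg_right h2 (by linarith)
          _ = ε * ((B - 1) * h) := by ring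
          _ ≤ ε * (b - a) := mul_le_mul_of_nonneg_left e1 hε.le
      have h7 : 4 * h * |M r| ≤ ε / 8 * (b - a) := by linarith
      have h8 : 4 * h * |M r| * L ≤ ε / 8 * (b - a) * L := mul_le_mul_of_nonneg_right h7 (by linarith)
      linarith
    calc ((b - a) / L ^ 2 + 4 * h * L) * |M r| = (b - a) / L ^ 2 * |M r| + 4 * h * L * |M r| := by ring
      _ ≤ ε / 8 * (b - a) * L + ε / 8 * (b - a) * L := add_le_add h3 h4
      _ = ε / 4 * (b - a) * L := by ring

end Pool.Agent.V11001.SI.Pairs
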