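import Pool.Agent.V11001.SI.Short
import Pool.Agent.H382R2.Final0

/-! Gaps between zeros in every short interval near the powers of almost every real number. -/

set_option autoImplicit false

open MeasureTheory Set Filter Topology

namespace Pool.Agent.V11001.SI

open Pool.Agent.V11001.KM

/-- the number of `n ≥ 1` with the property `Q` and `a < γ_n ≤ b` -/
noncomputable def cnt (Q : ℕ → Prop) (a b : ℝ) : ℕ := {n : ℕ | 1 ≤ n ∧ a < SG.ord n ∧ SG.ord n ≤ b ∧ Q n}.ncard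

lemma cnt_finite (Q : ℕ → Prop) (a b : ℝ) : {n : ℕ | 1 ≤ n ∧ a < SG.ord n ∧ SG.ord n ≤ b ∧ Q n}.Finite := by
  refine (Set.finite_Icc 1 (SG.NZ b)).subset ?_
  rintro n ⟨h1, -, h3, -⟩
  exact ⟨h1, (SG.ord_le_iff h1 b).1 h3⟩

lemma cnt_add (Q : ℕ → Prop) {a b c : ℝ} (hab : a ≤ b) (hbc : b ≤ c) : cnt Q a b + cnt Q b c ≤ cnt Q a c := by
  unfold cnt
  rw [← Set.ncard_union_eq _ (cnt_finite Q a b) (cnt_finite Q b c)]
  · refine Set.ncard_le_ncard ?_ (cnt_finite Q a c)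
    rintro n (⟨h1, h2, h3, h4⟩ | ⟨h1, h2, h3, h4⟩)
    · exact ⟨h1, h2, h3.trans hbc, h4⟩
    · exact ⟨h1, hab.trans_lt h2, h3, h4⟩
  · rw [Set.disjoint_left]
    rintro n ⟨-, -, h3, -⟩ ⟨-, h2, -, -⟩
    exact absurd h3 (not_le.2 h2)

/-- **Many gaps of a given kind in all short intervals near powers.** -/
theorem gaps (Q : ℕ → Prop) {c η₁ η δ T₀ : ℝ} (hc : 0 < c) (h0 : 0 < η₁) (h1 : η₁ < η) (h2 : η < 1) (hδ : 0 < δ)
    (hbad : ∀ T : ℝ, T₀ ≤ T → ∀ H : ℝ, T ^ η₁ ≤ H → H ≤ T / 8 →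
      volume {t : ℝ | T ≤ t ∧ t ≤ 2 * T ∧ (cnt Q t (t + H) : ℝ) < c * (H * Real.log T)} ≤
        ENNReal.ofReal (T ^ (1 - δ))) :
    ∃ s κ : ℝ, 0 < s ∧ s < 1 ∧ 0 < κ ∧ η + κ < 1 ∧ ∀ ν : ℕ → ℝ, Fast ν → ∀ U : Set ℝ, U.Countable →
      ∃ E : Set ℝ, dimH E ≤ ENNReal.ofReal s ∧ ∀ x : ℝ, 1 < x → x ∉ E → ∀ β ∈ U, 0 < β → ∃ n₀ : ℕ, ∀ n : ℕ, n₀ ≤ n →
        ∀ a b : ℝ, β * x ^ ν n - (β * x ^ ν n) ^ (η + κ) ≤ a → b ≤ β * x ^ ν n + (β * x ^ ν n) ^ (η + κ) →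
          (β * x ^ ν n) ^ η ≤ b - a → c / 4 * ((b - a) * Real.log (β * x ^ ν n)) ≤ (cnt Q a b : ℝ) := by
  have hη0 : 0 < η := h0.trans h1
  set κ : ℝ := min δ (1 - η) / 2 with hκ
  have hmin : 0 < min δ (1 - η) := lt_min hδ (by linarith)
  have hκ0 : 0 < κ := by positivity
  have hκ1 : κ < δ := by
    have := min_le_left δ (1 - η)
    linarith
  have hκ2 : κ < 1 - η := by
    have := min_le_right δ (1 - η)
    linarith
  obtain ⟨s, hs0, hs1, h⟩ := short_countable (K := c) (δ := δ) (η₁ := η₁) (η := η) (θ := η + κ)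
    hc.le h0 h1 (by linarith) (by linarith) (by linarith)
  refine ⟨s, κ, hs0, hs1, hκ0, by linarith, fun ν hν U hU => ?_⟩
  -- large scales
  obtain ⟨i₀, hi₀⟩ : ∃ i₀ : ℕ, ∀ i : ℕ, i₀ ≤ i → T₀ ≤ (2 : ℝ) ^ i ∧ ((2 : ℝ) ^ i) ^ η₁ ≤ (2 : ℝ) ^ i / 8 ∧ 2 ≤ i := by
    have hlim : Tendsto (fun i : ℕ => (2 : ℝ) ^ i) atTop atTop := tendsto_pow_atTop_atTop_of_one_lt (by norm_num)
    have e1 := hlim.eventually_ge_atTop T₀
    have e2 := ((tendsto_rpow_atTop (show (0 : ℝ) < 1 - η₁ by linarith)).comp hlim).eventually_ge_atTop 8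
    obtain ⟨i₀, hi₀⟩ := (e1.and (e2.and (eventually_ge_atTop 2))).exists_forall_of_atTop
    refine ⟨i₀, fun i hi => ?_⟩
    obtain ⟨g1, g2, g3⟩ := hi₀ i hi
    refine ⟨g1, ?_, g3⟩
    have hP0 : (0 : ℝ) < 2 ^ i := by positivity
    have g4 : (8 : ℝ) ≤ ((2 : ℝ) ^ i) ^ (1 - η₁) := g2
    have g5 : ((2 : ℝ) ^ i) ^ (1 - η₁) * ((2 : ℝ) ^ i) ^ η₁ = 2 ^ i := by
      rw [← Real.rpow_add hP0]
      simp
    have g6 := mul_le_mul_of_nonneg_right g4 (Real.rpow_nonneg hP0.le η₁)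
    rw [g5] at g6
    linarith
  have hlog : ∀ i : ℕ, 0 ≤ Real.log ((2 : ℝ) ^ i) := fun i => Real.log_nonneg (one_le_pow₀ (by norm_num))
  obtain ⟨E, hE1, hE2⟩ := h (fun i a b => c * ((b - a) * Real.log (2 ^ i)) - cnt Q a b) (fun i => Real.log (2 ^ i)) i₀
    hlog
    (fun i _ a b d _ hab hbd _ => by
      have h3 : ((cnt Q a b + cnt Q b d : ℕ) : ℝ) ≤ (cnt Q a d : ℝ) := by exact_mod_cast cnt_add Q hab hbd
      push_cast at h3
      nlinarith)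
    (fun i _ a b _ hab _ => by
      have h3 : (0 : ℝ) ≤ (cnt Q a b : ℝ) := Nat.cast_nonneg _
      have h4 : 0 ≤ c * Real.log (2 ^ i) := mul_nonneg hc.le (hlog i)
      nlinarith)
    (fun i hi => by
      obtain ⟨g1, g2, -⟩ := hi₀ i hi
      refine (measure_mono ?_).trans (hbad (2 ^ i) g1 _ le_rfl g2)
      rintro t ⟨ht1, ht2, ht3⟩
      refine ⟨ht1, ?_, ?_⟩
      · rw [pow_succ] at ht2
        linarith
      · have h3 : t + ((2 : ℝ) ^ i) ^ η₁ - t = ((2 : ℝ) ^ i) ^ η₁ := by ring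
        rw [h3] at ht3
        linarith)
    (c / 2) (by positivity) ν hν U hU
  refine ⟨E, hE1, fun x hx hxE β hβ hβ0 => ?_⟩
  obtain ⟨n₀, hn₀⟩ := hE2 x hx hxE β hβ hβ0
  refine ⟨n₀, fun n hn a b ha hb hab => ?_⟩
  obtain ⟨i, hi, hlow, hhigh, hD⟩ := hn₀ n hn
  have hD' := hD a b ha hb hab
  set T : ℝ := β * x ^ ν n with hT
  have hxpos : 0 < x ^ ν n := Real.rpow_pos_of_pos (by linarith) _
  have hT0 : 0 < T := mul_pos hβ0 hxpos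
  have hTη0 : 0 < T ^ η := Real.rpow_pos_of_pos hT0 _
  have hTθ0 : 0 < T ^ (η + κ) := Real.rpow_pos_of_pos hT0 _
  have hba : 0 < b - a := lt_of_lt_of_le hTη0 hab
  have hi2 := (hi₀ i hi).2.2
  have hP4 : (4 : ℝ) ≤ 2 ^ i := by
    calc (4 : ℝ) = 2 ^ 2 := by norm_num
      _ ≤ 2 ^ i := pow_le_pow_right₀ (by norm_num) hi2
  have hlogT : Real.log T ≤ 2 * Real.log (2 ^ i) := by
    have h3 : T ≤ ((2 : ℝ) ^ i) ^ 2 := by
      rw [pow_succ] at hhigh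
      nlinarith
    have h4 := Real.log_le_log hT0 h3
    rw [Real.log_pow] at h4
    exact_mod_cast h4
  have h5 : (b - a) * Real.log T ≤ (b - a) * (2 * Real.log (2 ^ i)) := mul_le_mul_of_nonneg_left hlogT hba.le
  have h6 : c / 4 * ((b - a) * Real.log T) ≤ c / 4 * ((b - a) * (2 * Real.log (2 ^ i))) :=
    mul_le_mul_of_nonneg_left h5 (by positivity)
  have h7 : c * ((b - a) * Real.log (2 ^ i)) - cnt Q a b ≤ c / 2 * Real.log (2 ^ i) * (b - a) := hD'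
  linarith

end Pool.Agent.V11001.SI
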