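import Pool.Agent.V11001.SI.Zeros
import Pool.Agent.Y771.DJ.AA

/-! Distinct zeros in every short interval near the powers of almost every real number. -/

set_option autoImplicit false
set_option maxHeartbeats 4000000

open Complex Filter Topology Set MeasureTheory

namespace Pool.Agent.V11001.SI

open H370 H370.A2 H295SI H370.AS Pool.Agent.TH822.DZ Pool.Agent.TH822.AA Pool.Agent.V11001.KM Pool.Agent.Y771.DJ

/-- the weight of a zero in the inequality for distinct zeros -/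
noncomputable def wt (F : ℂ → ℂ) (j : ℕ) (c : ℝ) (s : ℂ) : ℝ :=
  c * mult F s + (((if s.re = 1 / 2 then mult F s - (j + 1) else mult F s - 1 : ℕ) : ℝ) +
      ((j : ℝ) ^ 2 + 1) / 2 * (if s.re = 1 / 2 then 0 else 1)) - (j : ℝ) * (j + 1)

lemma Nd_card {F : ℂ → ℂ} (hF : GoodL F) {a b : ℝ} (ha : 1 ≤ a) : Nd F a b = (Zf F a b).card := by
  unfold Nd
  rw [← Set.ncard_coe_finset]
  congr 1
  ext s
  rw [Finset.mem_coe, mem_Zf hF ha]

lemma W_wt {F : ℂ → ℂ} (hF : GoodL F) (j : ℕ) (c : ℝ) {a b : ℝ} (ha : 1 ≤ a) :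
    W F (wt F j c) a b = c * (NN F a b : ℝ) + SJ j F a b - (j : ℝ) * (j + 1) * (Nd F a b : ℝ) := by
  unfold W wt
  rw [Finset.sum_sub_distrib, Finset.sum_add_distrib, ← Finset.mul_sum, NN_eq hF ha, SJ_eq hF ha, Nd_card hF ha,
    Finset.sum_const, nsmul_eq_mul]
  push_cast
  ring

/-- **Theorem.** The inequality for distinct zeros in all short intervals near the powers of all real numbers outside a set
of dimension less than one. -/
theorem distinct {F : ℂ → ℂ} (hF : GoodL F) (hB : ∀ τ : ℝ, 0 < τ → τ ≤ 1 → BZr F τ) (j : ℕ) (hj : 1 ≤ j) {η ε : ℝ}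
    (hη0 : 0 < η) (hη1 : η < 1) (hε : 0 < ε) :
    ∃ s κ : ℝ, 0 < s ∧ s < 1 ∧ 0 < κ ∧ η + κ < 1 ∧ ∀ ν : ℕ → ℝ, Fast ν → ∀ U : Set ℝ, U.Countable →
      ∃ E : Set ℝ, dimH E ≤ ENNReal.ofReal s ∧ ∀ x : ℝ, 1 < x → x ∉ E → ∀ β ∈ U, 0 < β → ∃ n₀ : ℕ, ∀ n : ℕ, n₀ ≤ n →
        ∀ a b : ℝ, β * x ^ ν n - (β * x ^ ν n) ^ (η + κ) ≤ a → b ≤ β * x ^ ν n + (β * x ^ ν n) ^ (η + κ) →
          (β * x ^ ν n) ^ η ≤ b - a →
            (2 * j + 1 - cc ((1 + η) / 2) - ε) * (NN F a b : ℝ) + SJ j F a b ≤ (j : ℝ) * (j + 1) * (Nd F a b : ℝ) := by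
  set lam : ℝ := (1 + η) / 2 with hlam
  have hlam0 : 1 / 2 < lam := by linarith
  have hlam1 : lam ≤ 1 := by linarith
  have hc := cc_cont lam (by linarith) hlam1
  have h1 : ∀ᶠ x : ℝ in 𝓝[<] lam, (1 / 2 < x ∧ x < lam) ∧ cc x < cc lam + ε / 3 := by
    have e1 : ∀ᶠ x : ℝ in 𝓝[<] lam, 1 / 2 < x := nhdsWithin_le_nhds (lt_mem_nhds hlam0)
    have e2 : ∀ᶠ x : ℝ in 𝓝[<] lam, x < lam := self_mem_nhdsWithin
    have e3 : ∀ᶠ x : ℝ in 𝓝[<] lam, cc x < cc lam + ε / 3 :=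
      nhdsWithin_le_nhds (hc.eventually (gt_mem_nhds (by linarith)))
    exact (e1.and e2).and e3
  obtain ⟨y, ⟨hy0, hy1⟩, hy2⟩ := h1.exists
  have hyle : y ≤ 1 := by linarith
  have hcy := cc_nonneg y (by linarith) hyle
  obtain ⟨δ, hδ, T0, hT0, hT⟩ := almost_j j hj hF hB (2 * y - 1) y (ε / 3) (by linarith) (by linarith) (by linarith)
    (by linarith) (by positivity)
  have hj1 : (1 : ℝ) ≤ j := by exact_mod_cast hj
  set c : ℝ := 2 * j + 1 - cc y - ε / 3 with hcdef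
  obtain ⟨s, κ, hs0, hs1, hκ0, hκ1, h⟩ := zeros_windows hF (wt F j c) (M := 2 * j + 1 + 1 + ((j : ℝ) ^ 2 + 1) / 2)
    (by positivity) (fun s hs0 hs => by
      have hm : (1 : ℝ) ≤ mult F s := by exact_mod_cast Loc.mult_pos' hF hs hs0
      have e1 : c * (mult F s : ℝ) ≤ (2 * j + 1) * mult F s := by
        apply mul_le_mul_of_nonneg_right _ (by linarith)
        linarith
      have e2 : ((if s.re = 1 / 2 then mult F s - (j + 1) else mult F s - 1 : ℕ) : ℝ) ≤ mult F s := by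
        have : (if s.re = 1 / 2 then mult F s - (j + 1) else mult F s - 1 : ℕ) ≤ mult F s := by
          split_ifs <;> omega
        exact_mod_cast this
      have e3 : ((j : ℝ) ^ 2 + 1) / 2 * (if s.re = 1 / 2 then (0 : ℝ) else 1) ≤ ((j : ℝ) ^ 2 + 1) / 2 * mult F s := by
        apply mul_le_mul_of_nonneg_left _ (by positivity)
        split_ifs <;> linarith
      have e4 : 0 ≤ (j : ℝ) * (j + 1) := by positivity
      unfold wt
      nlinarith)
    (η₁ := 2 * y - 1) (η := η) (δ := δ) (T₀ := max T0 1) (by linarith) (by linarith) hη1 hδ (fun T hTT H hH1 hH2 => by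
      refine (measure_mono ?_).trans (hT T ((le_max_left _ _).trans hTT) H hH1 hH2)
      rintro t ⟨ht1, ht2⟩
      refine ⟨ht1, fun hcon => ?_⟩
      have hT1 : 1 ≤ T := (le_max_right _ _).trans hTT
      rw [W_wt hF j c (hT1.trans ht1.1)] at ht2
      linarith)
  refine ⟨s, κ, hs0, hs1, hκ0, hκ1, fun ν hν U hU => ?_⟩
  obtain ⟨E, hE1, hE2⟩ := h (ε / 3) (by positivity) ν hν U hU
  refine ⟨E, hE1, fun x hx hxE β hβ hβ0 => ?_⟩
  obtain ⟨n₀, hn₀⟩ := hE2 x hx hxE β hβ hβ0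
  refine ⟨n₀, fun n hn a b ha hb hab => ?_⟩
  obtain ⟨ha1, hW⟩ := hn₀ n hn a b ha hb hab
  rw [W_wt hF j c ha1] at hW
  have hNN : (0 : ℝ) ≤ NN F a b := Nat.cast_nonneg _
  have h5 : (2 * j + 1 - cc lam - ε) * (NN F a b : ℝ) ≤ (c - ε / 3) * (NN F a b : ℝ) := by
    apply mul_le_mul_of_nonneg_right _ hNN
    rw [hcdef]
    linarith
  linarith

end Pool.Agent.V11001.SI
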