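import Mathlib

/-! The number of integers near which a set of small measure is concentrated. -/

set_option autoImplicit false

open MeasureTheory Set

namespace Pool.Agent.V11001.SI

open Classical in
/-- the number of integers `m` in a finite set `F` for which the interval `[m - w, m + w]` has `μ`-measure at least `r` -/
lemma card_rich (μ : Measure ℝ) (hμ : μ Set.univ ≠ ⊤) (F : Finset ℕ) {w r : ℝ} (hw : 0 ≤ w) (hr : 0 < r) :
    ((F.filter (fun m : ℕ => r ≤ (μ (Icc ((m : ℝ) - w) (m + w))).toReal)).card : ℝ) * r ≤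
      (2 * w + 1) * (μ Set.univ).toReal := by
  set G := F.filter (fun m : ℕ => r ≤ (μ (Icc ((m : ℝ) - w) (m + w))).toReal) with hG
  have hfin : ∀ m : ℕ, μ (Icc ((m : ℝ) - w) (m + w)) ≠ ⊤ := fun m =>
    ne_top_of_le_ne_top hμ (measure_mono (subset_univ _))
  have h1 : (∑ m ∈ G, μ (Icc ((m : ℝ) - w) (m + w))) ≤ ENNReal.ofReal (2 * w + 1) * μ Set.univ := by
    have h2 : (∑ m ∈ G, μ (Icc ((m : ℝ) - w) (m + w))) =
        ∫⁻ t, ∑ m ∈ G, (Icc ((m : ℝ) - w) (m + w)).indicator 1 t ∂μ := by
      rw [lintegral_finset_sum]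
      · refine Finset.sum_congr rfl fun m _ => ?_
        rw [lintegral_indicator_one measurableSet_Icc]
      · intro m _
        exact measurable_one.indicator measurableSet_Icc
    rw [h2]
    refine (lintegral_mono (g := fun _ => ENNReal.ofReal (2 * w + 1)) fun t => ?_).trans (by rw [lintegral_const])
    have h3 : (∑ m ∈ G, (Icc ((m : ℝ) - w) (m + w)).indicator (1 : ℝ → ENNReal) t) =
        ((G.filter (fun m : ℕ => t ∈ Icc ((m : ℝ) - w) (m + w))).card : ENNReal) := by
      rw [Finset.card_filter]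
      push_cast
      refine Finset.sum_congr rfl fun m _ => ?_
      by_cases h : t ∈ Icc ((m : ℝ) - w) (m + w)
      · rw [indicator_of_mem h, if_pos h]
        rfl
      · rw [indicator_of_notMem h, if_neg h]
    rw [h3]
    have h4 : ((G.filter (fun m : ℕ => t ∈ Icc ((m : ℝ) - w) (m + w))).card : ℝ) ≤ 2 * w + 1 := by
      have h5 : (G.filter (fun m : ℕ => t ∈ Icc ((m : ℝ) - w) (m + w))).image (fun m : ℕ => (m : ℤ)) ⊆
          Finset.Icc ⌈t - w⌉ ⌊t + w⌋ := by
        intro z hz
        rw [Finset.mem_image] at hz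
        obtain ⟨m, hm, rfl⟩ := hz
        rw [Finset.mem_filter, mem_Icc] at hm
        rw [Finset.mem_Icc, Int.ceil_le, Int.le_floor]
        push_cast
        constructor <;> linarith [hm.2.1, hm.2.2]
      have h6 := Finset.card_le_card h5
      rw [Finset.card_image_of_injective _ Nat.cast_injective, Int.card_Icc] at h6
      have h7 : ((⌊t + w⌋ + 1 - ⌈t - w⌉).toNat : ℝ) ≤ 2 * w + 1 := by
        rcases le_or_gt (⌊t + w⌋ + 1 - ⌈t - w⌉) 0 with h0 | h0
        · rw [Int.toNat_of_nonpos h0]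
          push_cast
          linarith
        · have h8 : ((⌊t + w⌋ + 1 - ⌈t - w⌉).toNat : ℝ) = ((⌊t + w⌋ + 1 - ⌈t - w⌉ : ℤ) : ℝ) := by
            exact_mod_cast Int.toNat_of_nonneg h0.le
          rw [h8]
          push_cast
          have h9 := Int.floor_le (t + w)
          have h10 := Int.le_ceil (t - w)
          linarith
      calc ((G.filter (fun m : ℕ => t ∈ Icc ((m : ℝ) - w) (m + w))).card : ℝ) ≤
            ((⌊t + w⌋ + 1 - ⌈t - w⌉).toNat : ℝ) := by exact_mod_cast h6
        _ ≤ 2 * w + 1 := h7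
    rw [← ENNReal.ofReal_natCast]
    exact ENNReal.ofReal_le_ofReal h4
  have h2 : ((G.card : ℝ)) * r ≤ (∑ m ∈ G, μ (Icc ((m : ℝ) - w) (m + w))).toReal := by
    rw [ENNReal.toReal_sum fun m _ => hfin m, ← nsmul_eq_mul]
    exact Finset.card_nsmul_le_sum _ _ _ fun m hm => (Finset.mem_filter.1 hm).2
  refine h2.trans ?_
  have h3 := ENNReal.toReal_mono (ENNReal.mul_ne_top ENNReal.ofReal_ne_top hμ) h1
  rwa [ENNReal.toReal_mul, ENNReal.toReal_ofReal (by linarith)] at h3

end Pool.Agent.V11001.SI
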