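import Mathlib

/-! From good short intervals to all intervals: a deterministic covering argument. -/

set_option autoImplicit false

open MeasureTheory Set

namespace Pool.Agent.V11001.SI

/-- Let `D` be subadditive on intervals, `D a b ≤ K (b - a + 1)`, and `D t (t + h) ≤ 0` for all `t` outside `Bad`. Then
`D a b` is small if `Bad` has small measure in `[a, b)` and `h` is large. -/
theorem det {D : ℝ → ℝ → ℝ} {lo hi h K : ℝ} (hh : 0 < h) (hK : 0 ≤ K) (Bad : Set ℝ)
    (hsub : ∀ a b c, lo ≤ a → a ≤ b → b ≤ c → c ≤ hi → D a c ≤ D a b + D b c)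
    (hup : ∀ a b, lo ≤ a → a ≤ b → b ≤ hi → D a b ≤ K * (b - a + 1))
    (hgood : ∀ t, lo ≤ t → t + h ≤ hi → t ∉ Bad → D t (t + h) ≤ 0) :
    ∀ (n : ℕ) (a b : ℝ), lo ≤ a → a ≤ b → b ≤ hi → b - a ≤ n * h →
      D a b ≤ K * ((volume.restrict Bad (Ico a b)).toReal + 3 * n + h + 2) := by
  have hfin : ∀ a b : ℝ, volume.restrict Bad (Ico a b) ≠ ⊤ := by
    intro a b
    refine ne_top_of_le_ne_top ?_ (Measure.restrict_apply_le Bad (Ico a b))
    rw [Real.volume_Ico]
    exact ENNReal.ofReal_ne_top
  intro n
  induction n with
  | zero =>
    intro a b ha hab hb hn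
    have h1 : b = a := by
      have : b - a ≤ 0 := by simpa using hn
      linarith
    subst h1
    refine (hup b b ha le_rfl hb).trans (mul_le_mul_of_nonneg_left ?_ hK)
    have h2 : 0 ≤ (volume.restrict Bad (Ico b b)).toReal := ENNReal.toReal_nonneg
    push_cast
    linarith
  | succ n ih =>
    intro a b ha hab hb hn
    have hV0 : 0 ≤ (volume.restrict Bad (Ico a b)).toReal := ENNReal.toReal_nonneg
    have hn0 : (0 : ℝ) ≤ n := Nat.cast_nonneg n
    rcases le_or_gt (b - a) h with hle | hgt
    · refine (hup a b ha hab hb).trans (mul_le_mul_of_nonneg_left ?_ hK)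
      push_cast
      linarith
    by_cases hG : ∃ t, a ≤ t ∧ t < b ∧ t ∉ Bad
    · set G : Set ℝ := {t | a ≤ t ∧ t < b ∧ t ∉ Bad} with hGdef
      have hGne : G.Nonempty := hG
      have hGbdd : BddBelow G := ⟨a, fun t ht => ht.1⟩
      set g₀ : ℝ := sInf G with hg₀
      have hag₀ : a ≤ g₀ := le_csInf hGne fun t ht => ht.1
      obtain ⟨g, hgG, hg1⟩ := exists_lt_of_csInf_lt hGne (show sInf G < g₀ + 1 by linarith)
      have hg₀g : g₀ ≤ g := csInf_le hGbdd hgG
      have hag : a ≤ g := hgG.1
      have hgb : g ≤ b := hgG.2.1.le
      -- the part before the first good point is bad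
      have hbad : Ico a g₀ ⊆ Bad := by
        intro t ht
        by_contra hcon
        have h1 : g₀ ≤ t := csInf_le hGbdd ⟨ht.1, lt_of_lt_of_le ht.2 (hg₀g.trans hgb), hcon⟩
        exact absurd ht.2 (not_lt.2 h1)
      have hV1 : g - a - 1 ≤ (volume.restrict Bad (Ico a g)).toReal := by
        have h1 : volume.restrict Bad (Ico a g₀) = ENNReal.ofReal (g₀ - a) := by
          rw [Measure.restrict_apply measurableSet_Ico, inter_eq_left.2 hbad, Real.volume_Ico]
        have h2 : volume.restrict Bad (Ico a g₀) ≤ volume.restrict Bad (Ico a g) :=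
          measure_mono (Ico_subset_Ico_right hg₀g)
        have h3 := ENNReal.toReal_mono (hfin a g) h2
        rw [h1, ENNReal.toReal_ofReal (by linarith)] at h3
        linarith
      have hDag : D a g ≤ K * ((volume.restrict Bad (Ico a g)).toReal + 2) :=
        (hup a g ha hag (hgb.trans hb)).trans (mul_le_mul_of_nonneg_left (by linarith) hK)
      have hsplit := hsub a g b ha hag hgb hb
      rcases lt_or_ge b (g + h) with hlt | hge
      · have hDgb := hup g b (ha.trans hag) hgb hb
        have hmono : (volume.restrict Bad (Ico a g)).toReal ≤ (volume.restrict Bad (Ico a b)).toReal :=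
          ENNReal.toReal_mono (hfin a b) (measure_mono (Ico_subset_Ico_right hgb))
        calc D a b ≤ D a g + D g b := hsplit
          _ ≤ K * ((volume.restrict Bad (Ico a g)).toReal + 2) + K * (b - g + 1) := add_le_add hDag hDgb
          _ = K * ((volume.restrict Bad (Ico a g)).toReal + 2 + (b - g + 1)) := by ring
          _ ≤ K * ((volume.restrict Bad (Ico a b)).toReal + 3 * ((n + 1 : ℕ) : ℝ) + h + 2) := by
              apply mul_le_mul_of_nonneg_left _ hK
              push_cast
              linarith
      · have hih := ih (g + h) b (by linarith) hge hb (by push_cast at hn; linarith)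
        have hgd := hgood g (ha.trans hag) (hge.trans hb) hgG.2.2
        have hs2 := hsub g (g + h) b (ha.trans hag) (by linarith) hge hb
        have hadd : (volume.restrict Bad (Ico a g)).toReal + (volume.restrict Bad (Ico (g + h) b)).toReal ≤
            (volume.restrict Bad (Ico a b)).toReal := by
          rw [← ENNReal.toReal_add (hfin _ _) (hfin _ _)]
          refine ENNReal.toReal_mono (hfin a b) ?_
          have hdisj : Disjoint (Ico a g) (Ico (g + h) b) := by
            rw [Set.disjoint_left]
            intro t ht ht'
            linarith [ht.2, ht'.1]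
          rw [← measure_union hdisj measurableSet_Ico]
          refine measure_mono (union_subset (Ico_subset_Ico_right hgb) (Ico_subset_Ico_left (by linarith)))
        calc D a b ≤ D a g + (D g (g + h) + D (g + h) b) := by linarith
          _ ≤ K * ((volume.restrict Bad (Ico a g)).toReal + 2) +
              (0 + K * ((volume.restrict Bad (Ico (g + h) b)).toReal + 3 * n + h + 2)) :=
              add_le_add hDag (add_le_add hgd hih)
          _ = K * ((volume.restrict Bad (Ico a g)).toReal + (volume.restrict Bad (Ico (g + h) b)).toReal +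
                3 * n + h + 4) := by ring
          _ ≤ K * ((volume.restrict Bad (Ico a b)).toReal + 3 * ((n + 1 : ℕ) : ℝ) + h + 2) := by
              apply mul_le_mul_of_nonneg_left _ hK
              push_cast
              linarith
    · push Not at hG
      have hsubs : Ico a b ⊆ Bad := fun t ht => hG t ht.1 ht.2
      have h1 : (volume.restrict Bad (Ico a b)).toReal = b - a := by
        rw [Measure.restrict_apply measurableSet_Ico, inter_eq_left.2 hsubs, Real.volume_Ico,
          ENNReal.toReal_ofReal (by linarith)]
      refine (hup a b ha hab hb).trans (mul_le_mul_of_nonneg_left ?_ hK)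
      rw [h1]
      push_cast
      linarith

end Pool.Agent.V11001.SI
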