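import Pool.Agent.V11001.SI.Det
import Pool.Agent.V11001.SI.Cells
import Pool.Agent.V11001.KM.Nat
import Pool.Agent.V11001.KM.Near

/-! Windows around the powers of almost every real number in which a set of small measure has small measure. -/

set_option autoImplicit false

open MeasureTheory Set Filter Topology

namespace Pool.Agent.V11001.SI

open Pool.Agent.V11001.KM

/-- the half-length of the windows -/
noncomputable def wid (θ : ℝ) (i : ℕ) : ℝ := 6 * ((2 : ℝ) ^ i) ^ θ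

/-- the bad integers: close to a power of two, or with too much of `Bad i` in a neighbourhood -/
def BadInt (Bad : ℕ → Set ℝ) (θ η ρ : ℝ) (i m : ℕ) : Prop :=
  (m : ℝ) < 2 ^ i + wid θ i ∨ (2 : ℝ) ^ (i + 1) - wid θ i < m ∨
    ρ * ((2 : ℝ) ^ i) ^ η ≤ (volume.restrict (Bad i ∩ Icc ((2 : ℝ) ^ i) (2 ^ (i + 1)))
      (Icc ((m : ℝ) - wid θ i) (m + wid θ i))).toReal

lemma restrict_univ_ne_top (Bad : ℕ → Set ℝ) (i : ℕ) :
    volume.restrict (Bad i ∩ Icc ((2 : ℝ) ^ i) (2 ^ (i + 1))) Set.univ ≠ ⊤ := by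
  rw [Measure.restrict_apply_univ]
  refine ne_top_of_le_ne_top ?_ (measure_mono inter_subset_right)
  rw [Real.volume_Icc]
  exact ENNReal.ofReal_ne_top

open Classical in
lemma card_bad (Bad : ℕ → Set ℝ) {δ θ η ρ : ℝ} (hθ0 : 0 < θ) (hη : 0 ≤ η) (hρ : 0 < ρ) (i : ℕ)
    (hi : volume (Bad i ∩ Icc ((2 : ℝ) ^ i) (2 ^ (i + 1))) ≤ ENNReal.ofReal (((2 : ℝ) ^ i) ^ (1 - δ))) :
    (((Finset.Icc 1 (2 ^ (i + 1))).filter (fun m : ℕ => 2 ^ i < m ∧ BadInt Bad θ η ρ i m)).card : ℝ) ≤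
      (13 + 13 / ρ) * ((2 : ℝ) ^ (i + 1)) ^ (max (max θ (1 - (η + δ - θ))) 0) := by
  set P : ℝ := (2 : ℝ) ^ i with hP
  have hP1 : 1 ≤ P := one_le_pow₀ (by norm_num)
  have hP0 : 0 < P := by linarith
  set s₀ : ℝ := max (max θ (1 - (η + δ - θ))) 0 with hs₀
  have hs0 : 0 ≤ s₀ := le_max_right _ _
  have hsθ : θ ≤ s₀ := (le_max_left _ _).trans (le_max_left _ _)
  have hsδ : 1 - (η + δ - θ) ≤ s₀ := (le_max_right _ _).trans (le_max_left _ _)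
  have hPθ : 1 ≤ P ^ θ := Real.one_le_rpow hP1 hθ0.le
  have hw : wid θ i = 6 * P ^ θ := rfl
  have hw0 : 0 ≤ wid θ i := by rw [hw]; positivity
  have hPN : P ≤ (2 : ℝ) ^ (i + 1) := by
    rw [pow_succ]
    linarith
  have hPs : P ^ s₀ ≤ ((2 : ℝ) ^ (i + 1)) ^ s₀ := Real.rpow_le_rpow hP0.le hPN hs0
  -- the three parts
  set μ : Measure ℝ := volume.restrict (Bad i ∩ Icc P ((2 : ℝ) ^ (i + 1))) with hμ
  have hcov : (Finset.Icc 1 (2 ^ (i + 1))).filter (fun m : ℕ => 2 ^ i < m ∧ BadInt Bad θ η ρ i m) ⊆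
      Finset.Ioc (2 ^ i) (2 ^ i + ⌊wid θ i⌋₊) ∪
        (Finset.Ioc (2 ^ (i + 1) - (⌊wid θ i⌋₊ + 1)) (2 ^ (i + 1)) ∪
        (Finset.Icc 1 (2 ^ (i + 1))).filter (fun m : ℕ => ρ * P ^ η ≤
          (μ (Icc ((m : ℝ) - wid θ i) (m + wid θ i))).toReal)) := by
    intro m hm
    rw [Finset.mem_filter, Finset.mem_Icc] at hm
    obtain ⟨⟨hm1, hm2⟩, hm3, hb⟩ := hm
    rw [Finset.mem_union, Finset.mem_union, Finset.mem_Ioc, Finset.mem_Ioc, Finset.mem_filter, Finset.mem_Icc]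
    rcases hb with hb | hb | hb
    · left
      refine ⟨hm3, ?_⟩
      have h1 : ((m - 2 ^ i : ℕ) : ℝ) ≤ wid θ i := by
        rw [Nat.cast_sub hm3.le]
        push_cast
        linarith
      have h2 := Nat.le_floor h1
      omega
    · right
      left
      refine ⟨?_, hm2⟩
      have h1 : ((2 ^ (i + 1) - m : ℕ) : ℝ) < (⌊wid θ i⌋₊ : ℝ) + 1 := by
        rw [Nat.cast_sub hm2]
        push_cast
        have := Nat.lt_floor_add_one (wid θ i)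
        linarith
      have h2 : 2 ^ (i + 1) - m < ⌊wid θ i⌋₊ + 1 := by exact_mod_cast h1
      omega
    · right
      right
      exact ⟨⟨hm1, hm2⟩, hb⟩
  have hfl : (⌊wid θ i⌋₊ : ℝ) ≤ wid θ i := Nat.floor_le hw0
  have hfl' : (⌊wid θ i⌋₊ : ℝ) ≤ 6 * P ^ θ := hfl.trans_eq hw
  have hc1 : ((Finset.Ioc (2 ^ i) (2 ^ i + ⌊wid θ i⌋₊)).card : ℝ) ≤ 6 * P ^ θ := by
    rw [Nat.card_Ioc]
    simp only [add_tsub_cancel_left]
    rw [← hw]
    exact hfl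
  have hc2 : ((Finset.Ioc (2 ^ (i + 1) - (⌊wid θ i⌋₊ + 1)) (2 ^ (i + 1))).card : ℝ) ≤ 7 * P ^ θ := by
    rw [Nat.card_Ioc]
    have h1 : 2 ^ (i + 1) - (2 ^ (i + 1) - (⌊wid θ i⌋₊ + 1)) ≤ ⌊wid θ i⌋₊ + 1 := by omega
    calc (((2 ^ (i + 1) - (2 ^ (i + 1) - (⌊wid θ i⌋₊ + 1)) : ℕ)) : ℝ) ≤ ((⌊wid θ i⌋₊ + 1 : ℕ) : ℝ) := by
          exact_mod_cast h1
      _ = (⌊wid θ i⌋₊ : ℝ) + 1 := by push_cast; ring
      _ ≤ 7 * P ^ θ := by linarith
  have hc3 : (((Finset.Icc 1 (2 ^ (i + 1))).filter (fun m : ℕ => ρ * P ^ η ≤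
      (μ (Icc ((m : ℝ) - wid θ i) (m + wid θ i))).toReal)).card : ℝ) ≤ 13 / ρ * P ^ (1 - (η + δ - θ)) := by
    have hr : 0 < ρ * P ^ η := mul_pos hρ (Real.rpow_pos_of_pos hP0 _)
    have h1 := card_rich μ (restrict_univ_ne_top Bad i) (Finset.Icc 1 (2 ^ (i + 1))) hw0 hr
    have h2 : (μ Set.univ).toReal ≤ P ^ (1 - δ) := by
      have h3 : μ Set.univ ≤ ENNReal.ofReal (P ^ (1 - δ)) := by
        rw [hμ, Measure.restrict_apply_univ]
        exact hi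
      have h4 := ENNReal.toReal_mono ENNReal.ofReal_ne_top h3
      rwa [ENNReal.toReal_ofReal (Real.rpow_nonneg hP0.le _)] at h4
    have h5 : (2 * wid θ i + 1) * (μ Set.univ).toReal ≤ 13 * P ^ θ * P ^ (1 - δ) := by
      apply mul_le_mul _ h2 ENNReal.toReal_nonneg (by positivity)
      rw [hw]
      linarith
    have h6 : P ^ (1 - (η + δ - θ)) * P ^ η = P ^ θ * P ^ (1 - δ) := by
      rw [← Real.rpow_add hP0, ← Real.rpow_add hP0]
      congr 1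
      ring
    have h7 : 13 / ρ * P ^ (1 - (η + δ - θ)) * (ρ * P ^ η) = 13 * P ^ θ * P ^ (1 - δ) := by
      calc 13 / ρ * P ^ (1 - (η + δ - θ)) * (ρ * P ^ η) = 13 * (P ^ (1 - (η + δ - θ)) * P ^ η) * (ρ / ρ) := by ring
        _ = 13 * P ^ θ * P ^ (1 - δ) := by rw [h6, div_self hρ.ne', mul_one]; ring
    have h8 := h1.trans (h5.trans_eq h7.symm)
    exact le_of_mul_le_mul_right h8 hr
  have hcard := (Finset.card_le_card hcov).trans ((Finset.card_union_le _ _).trans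
    (Nat.add_le_add_left (Finset.card_union_le _ _) _))
  have hθs : P ^ θ ≤ P ^ s₀ := Real.rpow_le_rpow_of_exponent_le hP1 hsθ
  have hδs : P ^ (1 - (η + δ - θ)) ≤ P ^ s₀ := Real.rpow_le_rpow_of_exponent_le hP1 hsδ
  calc (((Finset.Icc 1 (2 ^ (i + 1))).filter (fun m : ℕ => 2 ^ i < m ∧ BadInt Bad θ η ρ i m)).card : ℝ)
      ≤ ((Finset.Ioc (2 ^ i) (2 ^ i + ⌊wid θ i⌋₊)).card : ℝ) +
        (((Finset.Ioc (2 ^ (i + 1) - (⌊wid θ i⌋₊ + 1)) (2 ^ (i + 1))).card : ℝ) +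
        (((Finset.Icc 1 (2 ^ (i + 1))).filter (fun m : ℕ => ρ * P ^ η ≤
          (μ (Icc ((m : ℝ) - wid θ i) (m + wid θ i))).toReal)).card : ℝ)) := by exact_mod_cast hcard
    _ ≤ 6 * P ^ θ + (7 * P ^ θ + 13 / ρ * P ^ (1 - (η + δ - θ))) := add_le_add hc1 (add_le_add hc2 hc3)
    _ ≤ 6 * P ^ s₀ + (7 * P ^ s₀ + 13 / ρ * P ^ s₀) := by
        have : 0 < 13 / ρ := by positivity
        have := mul_le_mul_of_nonneg_left hδs this.le
        linarith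
    _ = (13 + 13 / ρ) * P ^ s₀ := by ring
    _ ≤ (13 + 13 / ρ) * ((2 : ℝ) ^ (i + 1)) ^ s₀ := mul_le_mul_of_nonneg_left hPs (by positivity)

open Classical in
/-- **Windows around powers with little of the bad sets.** -/
theorem windows {δ η θ : ℝ} (hη0 : 0 ≤ η) (hθ0 : 0 < θ) (hθ1 : θ < 1) (hθδ : θ < η + δ) :
    ∃ s : ℝ, 0 < s ∧ s < 1 ∧ ∀ (Bad : ℕ → Set ℝ) (i₀ : ℕ),
      (∀ i : ℕ, i₀ ≤ i → volume (Bad i ∩ Icc ((2 : ℝ) ^ i) (2 ^ (i + 1))) ≤ ENNReal.ofReal (((2 : ℝ) ^ i) ^ (1 - δ))) →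
      ∀ ρ : ℝ, 0 < ρ → ∀ ν : ℕ → ℝ, Fast ν → ∀ β : ℝ, 0 < β →
      ∃ E : Set ℝ, dimH E ≤ ENNReal.ofReal s ∧ ∀ x : ℝ, 1 < x → x ∉ E → ∃ n₀ : ℕ, ∀ n : ℕ, n₀ ≤ n →
        ∃ i : ℕ, i₀ ≤ i ∧ (2 : ℝ) ^ i ≤ β * x ^ ν n - (β * x ^ ν n) ^ θ ∧
          β * x ^ ν n + (β * x ^ ν n) ^ θ ≤ 2 ^ (i + 1) ∧
          (volume.restrict (Bad i) (Icc (β * x ^ ν n - (β * x ^ ν n) ^ θ) (β * x ^ ν n + (β * x ^ ν n) ^ θ))).toReal ≤
            ρ * (β * x ^ ν n) ^ η := by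
  set s₀ : ℝ := max (max θ (1 - (η + δ - θ))) 0 with hs₀
  have hs01 : s₀ < 1 := max_lt (max_lt hθ1 (by linarith)) one_pos
  have hs00 : 0 ≤ s₀ := le_max_right _ _
  refine ⟨(s₀ + 1) / 2, by linarith, by linarith, fun Bad i₀ hBad ρ hρ ν hν β hβ => ?_⟩
  set S : Set ℕ := {m | ∃ i : ℕ, 2 ^ i < m ∧ m ≤ 2 ^ (i + 1) ∧ BadInt Bad θ η ρ i m} with hS
  set bad : ℕ → Finset ℕ := fun N => (Finset.Icc 1 N).filter
    (fun m : ℕ => ∃ i : ℕ, N = 2 ^ (i + 1) ∧ 2 ^ i < m ∧ BadInt Bad θ η ρ i m) with hbaddef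
  obtain ⟨N₁, hN₁⟩ : ∃ N₁ : ℕ, ∀ N : ℕ, N₁ ≤ N → (13 + 13 / ρ) * (N : ℝ) ^ s₀ ≤ (N : ℝ) ^ ((s₀ + 1) / 2) := by
    have h1 : Tendsto (fun N : ℕ => (N : ℝ) ^ ((1 - s₀) / 2)) atTop atTop :=
      (tendsto_rpow_atTop (by linarith)).comp tendsto_natCast_atTop_atTop
    obtain ⟨N₁, hN₁⟩ := ((h1.eventually_ge_atTop (13 + 13 / ρ)).and (eventually_ge_atTop 1)).exists_forall_of_atTop
    refine ⟨N₁, fun N hN => ?_⟩
    obtain ⟨h2, h3⟩ := hN₁ N hN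
    have hN0 : (0 : ℝ) < N := by exact_mod_cast h3
    calc (13 + 13 / ρ) * (N : ℝ) ^ s₀ ≤ (N : ℝ) ^ ((1 - s₀) / 2) * (N : ℝ) ^ s₀ :=
          mul_le_mul_of_nonneg_right h2 (by positivity)
      _ = (N : ℝ) ^ ((s₀ + 1) / 2) := by
          rw [← Real.rpow_add hN0]
          congr 1
          ring
  have hbad : ∀ N : ℕ, max N₁ (2 ^ (i₀ + 1)) ≤ N → ((bad N).card : ℝ) ≤ (N : ℝ) ^ ((s₀ + 1) / 2) := by
    intro N hN
    by_cases hex : ∃ i : ℕ, N = 2 ^ (i + 1)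
    · obtain ⟨i, rfl⟩ := hex
      have hi : i₀ ≤ i := by
        have h1 : 2 ^ (i₀ + 1) ≤ 2 ^ (i + 1) := (le_max_right _ _).trans hN
        have := (Nat.pow_le_pow_iff_right (by norm_num : 1 < 2)).1 h1
        omega
      have hsub : bad (2 ^ (i + 1)) ⊆
          (Finset.Icc 1 (2 ^ (i + 1))).filter (fun m : ℕ => 2 ^ i < m ∧ BadInt Bad θ η ρ i m) := by
        intro m hm
        rw [hbaddef, Finset.mem_filter] at hm
        obtain ⟨h1, j, h2, h3, h4⟩ := hm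
        have hij : i = j := by
          have := Nat.pow_right_injective (le_refl 2) h2
          omega
        subst hij
        rw [Finset.mem_filter]
        exact ⟨h1, h3, h4⟩
      have h1 := card_bad Bad (δ := δ) hθ0 hη0 hρ i (hBad i hi)
      have h2 := hN₁ (2 ^ (i + 1)) ((le_max_left _ _).trans hN)
      push_cast at h2 ⊢
      calc ((bad (2 ^ (i + 1))).card : ℝ) ≤ (((Finset.Icc 1 (2 ^ (i + 1))).filter
            (fun m : ℕ => 2 ^ i < m ∧ BadInt Bad θ η ρ i m)).card : ℝ) := by exact_mod_cast Finset.card_le_card hsub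
        _ ≤ (13 + 13 / ρ) * ((2 : ℝ) ^ (i + 1)) ^ s₀ := h1
        _ ≤ ((2 : ℝ) ^ (i + 1)) ^ ((s₀ + 1) / 2) := h2
    · have hem : bad N = ∅ := by
        rw [hbaddef]
        apply Finset.filter_false_of_mem
        rintro m - ⟨i, hi, -⟩
        exact hex ⟨i, hi⟩
      rw [hem, Finset.card_empty, Nat.cast_zero]
      positivity
  obtain ⟨E, hE1, hE2⟩ := powers_of_bad (θ := 0) hν hβ (s := (s₀ + 1) / 2) (by linarith) one_pos S bad _ hbad 0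
    (fun i _ m hm h1 h2 => by
      obtain ⟨j, h3, h4, h5⟩ := hm
      have hij : i = j := by
        have e1 : 2 ^ i < 2 ^ (j + 1) := lt_of_lt_of_le h1 h4
        have e2 : 2 ^ j < 2 ^ (i + 1) := lt_of_lt_of_le h3 h2
        have e3 := (Nat.pow_lt_pow_iff_right (by norm_num : 1 < 2)).1 e1
        have e4 := (Nat.pow_lt_pow_iff_right (by norm_num : 1 < 2)).1 e2
        omega
      subst hij
      rw [hbaddef, Finset.mem_filter, Finset.mem_Icc]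
      exact ⟨⟨by omega, h2⟩, i, rfl, h1, h5⟩)
  rw [sub_zero, div_one] at hE1
  refine ⟨E, hE1, fun x hx hxE => ?_⟩
  obtain ⟨n₀, hn₀⟩ := hE2 x hx hxE
  obtain ⟨n₁, hn₁⟩ := large_of_near (θ := 0) hν hβ one_pos hx ((2 : ℝ) ^ (i₀ + 1) + 4)
  refine ⟨max n₀ n₁, fun n hn => ?_⟩
  set T : ℝ := β * x ^ ν n with hT
  have hxpos : 0 < x ^ ν n := Real.rpow_pos_of_pos (by linarith) _
  have hT0 : 0 < T := mul_pos hβ hxpos
  have hTlarge : (2 : ℝ) ^ (i₀ + 1) + 4 ≤ T := by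
    refine hn₁ n ((le_max_right _ _).trans hn) T ?_
    rw [sub_self, abs_zero]
    positivity
  set m : ℕ := ⌊T⌋₊ with hm
  have hmT : (m : ℝ) ≤ T := Nat.floor_le hT0.le
  have hTm : T < m + 1 := Nat.lt_floor_add_one T
  have hmS : m ∉ S := by
    intro h
    have h1 := hn₀ n ((le_max_left _ _).trans hn) m h
    rw [zero_mul, Real.rpow_zero] at h1
    have h2 : |(m : ℝ) - T| ≤ 1 := by
      rw [abs_le]
      constructor <;> linarith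
    linarith
  have hm2 : 2 ^ (i₀ + 1) + 3 ≤ m := by
    have h1 : ((2 ^ (i₀ + 1) + 3 : ℕ) : ℝ) < m + 1 := by
      push_cast
      linarith
    have h2 : 2 ^ (i₀ + 1) + 3 < m + 1 := by exact_mod_cast h1
    omega
  have hpos2 : 0 < 2 ^ (i₀ + 1) := by positivity
  have hm3 : 3 ≤ m := by omega
  -- the dyadic block of `m`
  obtain ⟨i, hi1, hi2⟩ : ∃ i : ℕ, 2 ^ i < m ∧ m ≤ 2 ^ (i + 1) := by
    refine ⟨Nat.log 2 (m - 1), ?_, ?_⟩
    · have h1 := Nat.pow_log_le_self 2 (show m - 1 ≠ 0 by omega)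
      exact lt_of_le_of_lt h1 (by omega)
    · have h1 := Nat.lt_pow_succ_log_self (by norm_num : 1 < 2) (m - 1)
      have h2 : m - 1 + 1 ≤ 2 ^ (Nat.log 2 (m - 1)).succ := h1
      have h3 : m - 1 + 1 = m := by omega
      rw [h3] at h2
      exact h2
  have hii : i₀ ≤ i := by
    have h1 : 2 ^ (i₀ + 1) < 2 ^ (i + 1) := by omega
    have := (Nat.pow_lt_pow_iff_right (by norm_num : 1 < 2)).1 h1
    omega
  have hnb : ¬ BadInt Bad θ η ρ i m := fun h => hmS ⟨i, hi1, hi2, h⟩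
  unfold BadInt at hnb
  push Not at hnb
  obtain ⟨hb1, hb2, hb3⟩ := hnb
  set P : ℝ := (2 : ℝ) ^ i with hP
  have hP1 : 1 ≤ P := one_le_pow₀ (by norm_num)
  have hP0 : 0 < P := by linarith
  have hPθ : 1 ≤ P ^ θ := Real.one_le_rpow hP1 hθ0.le
  have hw : wid θ i = 6 * P ^ θ := rfl
  rw [hw] at hb1 hb2 hb3
  have hPT : P ≤ T := by linarith
  have hT2P : T ≤ 2 * P := by
    have h1 : (2 : ℝ) ^ (i + 1) = 2 * P := by rw [pow_succ]; ring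
    rw [h1] at hb2
    linarith
  have hTθ : T ^ θ ≤ 2 * P ^ θ := by
    calc T ^ θ ≤ (2 * P) ^ θ := Real.rpow_le_rpow hT0.le hT2P hθ0.le
      _ = 2 ^ θ * P ^ θ := Real.mul_rpow (by norm_num) hP0.le
      _ ≤ 2 * P ^ θ := by
          apply mul_le_mul_of_nonneg_right _ (by positivity)
          calc (2 : ℝ) ^ θ ≤ 2 ^ (1 : ℝ) := Real.rpow_le_rpow_of_exponent_le (by norm_num) hθ1.le
            _ = 2 := Real.rpow_one 2
  have hlow : P ≤ T - T ^ θ := by linarith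
  have hhigh : T + T ^ θ ≤ (2 : ℝ) ^ (i + 1) := by linarith
  refine ⟨i, hii, hlow, hhigh, ?_⟩
  have hsub : Icc (T - T ^ θ) (T + T ^ θ) ∩ Bad i ⊆
      Icc ((m : ℝ) - 6 * P ^ θ) (m + 6 * P ^ θ) ∩ (Bad i ∩ Icc P ((2 : ℝ) ^ (i + 1))) := by
    rintro t ⟨ht1, ht2⟩
    rw [mem_Icc] at ht1
    refine ⟨?_, ht2, ?_⟩
    · rw [mem_Icc]
      constructor <;> linarith [ht1.1, ht1.2]
    · rw [mem_Icc]
      constructor <;> linarith [ht1.1, ht1.2]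
  have hle : volume.restrict (Bad i) (Icc (T - T ^ θ) (T + T ^ θ)) ≤
      volume.restrict (Bad i ∩ Icc P ((2 : ℝ) ^ (i + 1))) (Icc ((m : ℝ) - 6 * P ^ θ) (m + 6 * P ^ θ)) := by
    rw [Measure.restrict_apply measurableSet_Icc, Measure.restrict_apply measurableSet_Icc]
    exact measure_mono hsub
  have hfin : volume.restrict (Bad i ∩ Icc P ((2 : ℝ) ^ (i + 1))) (Icc ((m : ℝ) - 6 * P ^ θ) (m + 6 * P ^ θ)) ≠ ⊤ :=
    ne_top_of_le_ne_top (restrict_univ_ne_top Bad i) (measure_mono (subset_univ _))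
  calc (volume.restrict (Bad i) (Icc (T - T ^ θ) (T + T ^ θ))).toReal
      ≤ (volume.restrict (Bad i ∩ Icc P ((2 : ℝ) ^ (i + 1))) (Icc ((m : ℝ) - 6 * P ^ θ) (m + 6 * P ^ θ))).toReal :=
        ENNReal.toReal_mono hfin hle
    _ ≤ ρ * P ^ η := hb3.le
    _ ≤ ρ * T ^ η := mul_le_mul_of_nonneg_left (Real.rpow_le_rpow hP0.le hPT hη0) hρ.le

end Pool.Agent.V11001.SI
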