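import Pool.Agent.V11001.KM.Nat
import Pool.Agent.V11001.KM.Near
import Pool.Agent.TH822.AA.Main

/-! No zeros off the critical line near the powers of almost every real number. -/

set_option autoImplicit false
set_option maxHeartbeats 4000000

open Complex Filter Topology Set MeasureTheory

namespace Pool.Agent.V11001.SI

open H370 Pool.Agent.TH822.DZ Pool.Agent.V11001.KM

/-- the integers `m` such that there is a zero to the right of `1/2 + τ` with ordinate in `[m, m + 1)` -/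
def OffInt (F : ℂ → ℂ) (τ : ℝ) : Set ℕ :=
  {m | ∃ s : ℂ, F s = 0 ∧ 1 / 2 + τ < s.re ∧ s.re < 1 ∧ (m : ℝ) ≤ s.im ∧ s.im < m + 1}

open Classical in
lemma card_off {F : ℂ → ℂ} {τ δ : ℝ} {T : ℝ} (hT : 2 ≤ T)
    (h : volume {t : ℝ | t ∈ Set.Icc T (2 * T) ∧ ∃ s : ℂ, F s = 0 ∧ 1 / 2 + τ < s.re ∧ s.re < 1 ∧
      (|s.im - t| ≤ 3 * Real.log T ∨ |s.im - (t + 0)| ≤ 3 * Real.log T)} ≤ ENNReal.ofReal (T ^ (1 - δ)))
    (Z : Finset ℕ) (hZ : ∀ m ∈ Z, m ∈ OffInt F τ ∧ T + 1 ≤ m ∧ (m : ℝ) ≤ 2 * T) :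
    (Z.card : ℝ) ≤ T ^ (1 - δ) := by
  have hlog : 2 ≤ 3 * Real.log T := by
    have h1 : Real.log 2 ≤ Real.log T := Real.log_le_log (by norm_num) hT
    have h2 := Real.log_two_gt_d9
    linarith
  have hdisj : Set.PairwiseDisjoint (Z : Set ℕ) (fun m : ℕ => Ico ((m : ℝ) - 1) m) := by
    intro a _ b _ hab
    rw [Function.onFun, Set.disjoint_left]
    intro t ht ht'
    rw [mem_Ico] at ht ht'
    apply hab
    have h1 : (a : ℝ) < b + 1 := by linarith [ht.1, ht'.2]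
    have h2 : (b : ℝ) < a + 1 := by linarith [ht.2, ht'.1]
    have h3 : a < b + 1 := by exact_mod_cast h1
    have h4 : b < a + 1 := by exact_mod_cast h2
    omega
  have hvol : volume (⋃ m ∈ Z, Ico ((m : ℝ) - 1) m) = (Z.card : ENNReal) := by
    rw [measure_biUnion_finset hdisj (fun _ _ => measurableSet_Ico)]
    simp
  have hsub : (⋃ m ∈ Z, Ico ((m : ℝ) - 1) m) ⊆ {t : ℝ | t ∈ Set.Icc T (2 * T) ∧ ∃ s : ℂ, F s = 0 ∧
      1 / 2 + τ < s.re ∧ s.re < 1 ∧ (|s.im - t| ≤ 3 * Real.log T ∨ |s.im - (t + 0)| ≤ 3 * Real.log T)} := by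
    intro t ht
    simp only [mem_iUnion, mem_Ico] at ht
    obtain ⟨m, hm, h1, h2⟩ := ht
    obtain ⟨⟨s, g1, g2, g3, g4, g5⟩, g6, g7⟩ := hZ m hm
    refine ⟨⟨by linarith, by linarith⟩, s, g1, g2, g3, Or.inl ?_⟩
    rw [abs_le]
    constructor <;> linarith
  have h1 := (measure_mono hsub).trans h
  rw [hvol] at h1
  have h2 := ENNReal.toReal_mono ENNReal.ofReal_ne_top h1
  rwa [ENNReal.toReal_natCast, ENNReal.toReal_ofReal (Real.rpow_nonneg (by linarith) _)] at h2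

/-- **Theorem.** No zeros off the line near the powers of all real numbers outside a set of dimension less than one. -/
theorem off {F : ℂ → ℂ} (hF : GoodL F) {τ : ℝ} (hB : BZr F τ) :
    ∃ s θ : ℝ, 0 < s ∧ s < 1 ∧ 0 < θ ∧ θ < 1 ∧ ∀ ν : ℕ → ℝ, Fast ν → ∀ U : Set ℝ, U.Countable →
      ∃ E : Set ℝ, dimH E ≤ ENNReal.ofReal s ∧ ∀ x : ℝ, 1 < x → x ∉ E → ∀ β ∈ U, 0 < β → ∃ n₀ : ℕ, ∀ n : ℕ, n₀ ≤ n →
        ∀ ρ : ℂ, F ρ = 0 → 0 < ρ.re → ρ.re < 1 → |ρ.im - β * x ^ ν n| ≤ (β * x ^ ν n) ^ θ →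
          |ρ.re - 1 / 2| ≤ τ := by
  classical
  obtain ⟨δ, hδ, T₀, hT⟩ := hB
  set δ' : ℝ := min δ (1 / 2) with hδ'
  have hδ'0 : 0 < δ' := lt_min hδ (by norm_num)
  have hδ'1 : δ' ≤ 1 / 2 := min_le_right _ _
  have hδ'2 : δ' ≤ δ := min_le_left _ _
  set θ : ℝ := δ' / 2 with hθ
  set s₀ : ℝ := 1 - δ' with hs₀
  have hs₀0 : 0 < s₀ := by linarith
  have hs1 : s₀ / (1 - θ) < 1 := by
    rw [div_lt_one (by linarith)]
    linarith
  have hs0 : 0 < s₀ / (1 - θ) := div_pos hs₀0 (by linarith)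
  refine ⟨s₀ / (1 - θ), θ / 2, hs0, hs1, by linarith, by linarith, fun ν hν U hU => ?_⟩
  set bad : ℕ → Finset ℕ := fun N => (Finset.Icc 1 N).filter
    (fun m : ℕ => ∃ i : ℕ, N = 2 ^ (i + 1) ∧ 2 ^ i < m ∧ m ∈ OffInt F τ) with hbaddef
  obtain ⟨N₁, hN₁⟩ : ∃ N₁ : ℕ, max T₀ 4 ≤ N₁ := exists_nat_ge _
  have hbad : ∀ N : ℕ, 2 * N₁ ≤ N → ((bad N).card : ℝ) ≤ (N : ℝ) ^ s₀ := by
    intro N hN
    have hNpos : (0 : ℝ) ≤ N := Nat.cast_nonneg _
    by_cases hex : ∃ i : ℕ, N = 2 ^ (i + 1)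
    · obtain ⟨i, rfl⟩ := hex
      have hT₀ : max T₀ 4 ≤ (2 : ℝ) ^ i := by
        have h1 : N₁ ≤ 2 ^ i := by
          rw [pow_succ] at hN
          omega
        have h2 : (N₁ : ℝ) ≤ 2 ^ i := by exact_mod_cast h1
        exact hN₁.trans h2
      have hT1 : T₀ ≤ (2 : ℝ) ^ i := (le_max_left _ _).trans hT₀
      have hT4 : (4 : ℝ) ≤ (2 : ℝ) ^ i := (le_max_right _ _).trans hT₀
      have h1 := card_off (F := F) (τ := τ) (δ := δ) (T := 2 ^ i) (by linarith)
        (hT (2 ^ i) hT1 0 le_rfl (by positivity)) (bad (2 ^ (i + 1))) (fun m hm => by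
          rw [hbaddef, Finset.mem_filter, Finset.mem_Icc] at hm
          obtain ⟨⟨g1, g2⟩, j, g3, g4, g5⟩ := hm
          have hij : i = j := by
            have := Nat.pow_right_injective (le_refl 2) g3
            omega
          subst hij
          refine ⟨g5, ?_, ?_⟩
          · have : 2 ^ i + 1 ≤ m := g4
            exact_mod_cast this
          · have e : (2 : ℝ) * 2 ^ i = ((2 ^ (i + 1) : ℕ) : ℝ) := by
              push_cast
              rw [pow_succ]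
              ring
            rw [e]
            exact_mod_cast g2)
      calc ((bad (2 ^ (i + 1))).card : ℝ) ≤ ((2 : ℝ) ^ i) ^ (1 - δ) := h1
        _ ≤ ((2 : ℝ) ^ i) ^ s₀ := Real.rpow_le_rpow_of_exponent_le (by linarith) (by linarith)
        _ ≤ (((2 ^ (i + 1) : ℕ) : ℝ)) ^ s₀ := by
            apply Real.rpow_le_rpow (by positivity) _ hs₀0.le
            push_cast
            rw [pow_succ]
            linarith
    · have hem : bad N = ∅ := by
        rw [hbaddef]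
        apply Finset.filter_false_of_mem
        rintro m - ⟨i, hi, -⟩
        exact hex ⟨i, hi⟩
      rw [hem, Finset.card_empty, Nat.cast_zero]
      positivity
  have hS : ∀ i : ℕ, 0 ≤ i → ∀ m ∈ OffInt F τ, 2 ^ i < m → m ≤ 2 ^ (i + 1) → m ∈ bad (2 ^ (i + 1)) := by
    intro i _ m hm h1 h2
    rw [hbaddef, Finset.mem_filter, Finset.mem_Icc]
    exact ⟨⟨by omega, h2⟩, i, rfl, h1, hm⟩
  have hc : Countable U := hU.to_subtype
  have hall : ∀ q : {β : U // 0 < (β : ℝ)}, _ := fun q =>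
    powers_of_bad (θ := θ) hν q.2 hs₀0 (by linarith) (OffInt F τ) bad (2 * N₁) hbad 0 hS
  choose E hE1 hE2 using hall
  refine ⟨⋃ q, E q, ?_, fun x hx hxE β hβ hβ0 => ?_⟩
  · rw [dimH_iUnion]
    exact iSup_le hE1
  obtain ⟨n₀, hn₀⟩ := hE2 ⟨⟨β, hβ⟩, hβ0⟩ x hx (fun g => hxE (Set.mem_iUnion.2 ⟨_, g⟩))
  -- large `x ^ ν n`
  have hlim : Tendsto (fun n => x ^ ν n) atTop atTop := by
    have h1 : Tendsto (fun n => Real.exp (Real.log x * ν n)) atTop atTop :=
      Real.tendsto_exp_atTop.comp ((tendsto_lam hν).const_mul_atTop (Real.log_pos hx))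
    refine h1.congr fun n => ?_
    rw [Real.rpow_def_of_pos (by linarith)]
  have e1 : ∀ᶠ n : ℕ in atTop, β ^ (θ / 2) + 1 ≤ (x ^ ν n) ^ (θ / 2) :=
    ((tendsto_rpow_atTop (by linarith)).comp hlim).eventually_ge_atTop _
  have e2 : ∀ᶠ n : ℕ in atTop, 1 ≤ x ^ ν n := hlim.eventually_ge_atTop _
  have e3 : ∀ᶠ n : ℕ in atTop, 4 ≤ β * x ^ ν n := (hlim.const_mul_atTop hβ0).eventually_ge_atTop _
  obtain ⟨n₁, hn₁⟩ := (e1.and (e2.and e3)).exists_forall_of_atTop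
  refine ⟨max n₀ n₁, fun n hn ρ hρ hρ0 hρ1 hρT => ?_⟩
  obtain ⟨g1, g2, g3⟩ := hn₁ n ((le_max_right _ _).trans hn)
  have key := hn₀ n ((le_max_left _ _).trans hn)
  have hx0 : 0 < x := by linarith
  set z : ℝ := x ^ ν n with hz
  have hz0 : 0 < z := Real.rpow_pos_of_pos hx0 _
  have hw : x ^ (θ * ν n) = z ^ θ := by
    rw [hz, ← Real.rpow_mul hx0.le]
    congr 1
    ring
  -- the width of the window
  have hwidth : (β * z) ^ (θ / 2) + 1 ≤ z ^ θ := by
    have h1 : z ^ θ = z ^ (θ / 2) * z ^ (θ / 2) := by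
      rw [← Real.rpow_add hz0]
      congr 1
      ring
    have h2 : 1 ≤ z ^ (θ / 2) := Real.one_le_rpow g2 (by linarith)
    rw [Real.mul_rpow hβ0.le hz0.le, h1]
    have h3 := mul_le_mul_of_nonneg_right g1 (show 0 ≤ z ^ (θ / 2) by positivity)
    linarith
  have hle : (β * z) ^ (θ / 2) ≤ β * z / 2 := by
    have h1 : (β * z) ^ (θ / 2) ≤ (β * z) ^ (1 / 2 : ℝ) :=
      Real.rpow_le_rpow_of_exponent_le (by linarith) (by linarith)
    have h2 : (β * z) ^ (1 / 2 : ℝ) = Real.sqrt (β * z) := (Real.sqrt_eq_rpow _).symm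
    have h3 : Real.sqrt (β * z) ≤ β * z / 2 := by
      rw [Real.sqrt_le_left (by linarith)]
      nlinarith
    linarith
  have him := abs_le.1 hρT
  have him1 : 1 ≤ ρ.im := by linarith [him.1]
  -- zeros to the right
  have right : ∀ ρ' : ℂ, F ρ' = 0 → ρ'.re < 1 → ρ'.im = ρ.im → ρ'.re ≤ 1 / 2 + τ := by
    intro ρ' h1 h2 h3
    by_contra hcon
    rw [not_le] at hcon
    have hm : ⌊ρ.im⌋₊ ∈ OffInt F τ := by
      refine ⟨ρ', h1, hcon, h2, ?_, ?_⟩
      · rw [h3]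
        exact Nat.floor_le (by linarith)
      · rw [h3]
        exact Nat.lt_floor_add_one _
    have h4 := key _ hm
    rw [hw] at h4
    have h5 : |((⌊ρ.im⌋₊ : ℕ) : ℝ) - β * z| ≤ (β * z) ^ (θ / 2) + 1 := by
      have h6 := Nat.floor_le (show 0 ≤ ρ.im by linarith)
      have h7 := Nat.lt_floor_add_one ρ.im
      rw [abs_le]
      constructor <;> linarith [him.1, him.2]
    linarith
  rw [abs_le]
  constructor
  · -- the reflected zero
    have hsym := hF.symm ρ hρ0 hρ1 him1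
    have hne : analyticOrderAt F ρ ≠ 0 := by
      rw [AnalyticAt.analyticOrderAt_ne_zero (hF.an ρ (by linarith))]
      exact hρ
    rw [← hsym] at hne
    have him' : (1 - (starRingEnd ℂ) ρ).im = ρ.im := by simp
    have hre' : (1 - (starRingEnd ℂ) ρ).re = 1 - ρ.re := by simp
    have hz' : F (1 - (starRingEnd ℂ) ρ) = 0 := by
      rw [AnalyticAt.analyticOrderAt_ne_zero (hF.an _ (by rw [him']; linarith))] at hne
      exact hne
    have := right _ hz' (by rw [hre']; linarith) him'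
    rw [hre'] at this
    linarith
  · have := right ρ hρ hρ1 rfl
    linarith

end Pool.Agent.V11001.SI
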