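import Pool.Agent.V11001.SI.Main

/-! From almost all intervals of length `T ^ η₁` to all intervals of length at least `T ^ η` near the powers of almost
every real number. -/

set_option autoImplicit false

open MeasureTheory Set Filter Topology

namespace Pool.Agent.V11001.SI

open Pool.Agent.V11001.KM

/-- all intervals of length at least `T ^ η` in the windows `[T - T ^ θ, T + T ^ θ]`, `T = β x ^ (ν n)` -/
theorem short {K δ η₁ η θ : ℝ} (hK : 0 ≤ K) (h0 : 0 < η₁) (h1 : η₁ < η) (hθ0 : 0 < θ) (hθ1 : θ < 1)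
    (hθδ : θ < η + δ) :
    ∃ s : ℝ, 0 < s ∧ s < 1 ∧ ∀ (D : ℕ → ℝ → ℝ → ℝ) (L : ℕ → ℝ) (i₀ : ℕ), (∀ i, 0 ≤ L i) →
      (∀ i : ℕ, i₀ ≤ i → ∀ a b c : ℝ, (2 : ℝ) ^ i ≤ a → a ≤ b → b ≤ c → c ≤ 2 ^ (i + 1) →
        D i a c ≤ D i a b + D i b c) →
      (∀ i : ℕ, i₀ ≤ i → ∀ a b : ℝ, (2 : ℝ) ^ i ≤ a → a ≤ b → b ≤ 2 ^ (i + 1) → D i a b ≤ K * L i * (b - a + 1)) →
      (∀ i : ℕ, i₀ ≤ i → volume {t : ℝ | (2 : ℝ) ^ i ≤ t ∧ t ≤ 2 ^ (i + 1) ∧ 0 < D i t (t + ((2 : ℝ) ^ i) ^ η₁)} ≤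
        ENNReal.ofReal (((2 : ℝ) ^ i) ^ (1 - δ))) →
      ∀ ε : ℝ, 0 < ε → ∀ ν : ℕ → ℝ, Fast ν → ∀ β : ℝ, 0 < β →
      ∃ E : Set ℝ, dimH E ≤ ENNReal.ofReal s ∧ ∀ x : ℝ, 1 < x → x ∉ E → ∃ n₀ : ℕ, ∀ n : ℕ, n₀ ≤ n →
        ∃ i : ℕ, i₀ ≤ i ∧ (2 : ℝ) ^ i ≤ β * x ^ ν n - (β * x ^ ν n) ^ θ ∧
          β * x ^ ν n + (β * x ^ ν n) ^ θ ≤ 2 ^ (i + 1) ∧
          ∀ a b : ℝ, β * x ^ ν n - (β * x ^ ν n) ^ θ ≤ a → b ≤ β * x ^ ν n + (β * x ^ ν n) ^ θ →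
            (β * x ^ ν n) ^ η ≤ b - a → D i a b ≤ ε * L i * (b - a) := by
  have hη0 : 0 < η := h0.trans h1
  obtain ⟨s, hs0, hs1, hwin⟩ := windows (δ := δ) hη0.le hθ0 hθ1 hθδ
  refine ⟨s, hs0, hs1, fun D L i₀ hL hsub hup hbad ε hε ν hν β hβ => ?_⟩
  set ρ : ℝ := ε / (3 * (K + 1)) with hρ
  have hρ0 : 0 < ρ := by positivity
  set Bad : ℕ → Set ℝ := fun i => {t : ℝ | 0 < D i t (t + ((2 : ℝ) ^ i) ^ η₁)} with hBaddef
  obtain ⟨E, hE1, hE2⟩ := hwin Bad i₀ (fun i hi => by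
    refine (measure_mono ?_).trans (hbad i hi)
    rintro t ⟨ht1, ht2⟩
    exact ⟨ht2.1, ht2.2, ht1⟩) ρ hρ0 ν hν β hβ
  refine ⟨E, hE1, fun x hx hxE => ?_⟩
  obtain ⟨n₀, hn₀⟩ := hE2 x hx hxE
  -- large `T`
  obtain ⟨T₁, hT₁⟩ : ∃ T₁ : ℝ, ∀ T : ℝ, T₁ ≤ T → 3 ≤ ρ * (T / 2) ^ η₁ ∧ T ^ η₁ + 5 ≤ ρ * T ^ η ∧ 1 ≤ T := by
    have e1 : Tendsto (fun T : ℝ => ρ * (T / 2) ^ η₁) atTop atTop :=
      ((tendsto_rpow_atTop h0).comp (tendsto_id.atTop_div_const (by norm_num))).const_mul_atTop hρ0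
    have e2 : Tendsto (fun T : ℝ => ρ * T ^ (η - η₁)) atTop atTop :=
      (tendsto_rpow_atTop (by linarith)).const_mul_atTop hρ0
    have e3 := (e1.eventually_ge_atTop 3).and ((e2.eventually_ge_atTop 6).and (eventually_ge_atTop 1))
    obtain ⟨T₁, hT₁⟩ := e3.exists_forall_of_atTop
    refine ⟨T₁, fun T hT => ?_⟩
    obtain ⟨g1, g2, g3⟩ := hT₁ T hT
    refine ⟨g1, ?_, g3⟩
    have hT0 : 0 < T := by linarith
    have g4 : 1 ≤ T ^ η₁ := Real.one_le_rpow g3 h0.le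
    have g5 : ρ * T ^ η = ρ * T ^ (η - η₁) * T ^ η₁ := by
      rw [mul_assoc, ← Real.rpow_add hT0]
      congr 2
      ring
    rw [g5]
    have g6 : 6 * T ^ η₁ ≤ ρ * T ^ (η - η₁) * T ^ η₁ := mul_le_mul_of_nonneg_right g2 (by positivity)
    linarith
  obtain ⟨n₁, hn₁⟩ := large_of_near (θ := 0) hν hβ one_pos hx T₁
  refine ⟨max n₀ n₁, fun n hn => ?_⟩
  obtain ⟨i, hi, hlow, hhigh, hV⟩ := hn₀ n ((le_max_left _ _).trans hn)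
  set T : ℝ := β * x ^ ν n with hT
  have hxpos : 0 < x ^ ν n := Real.rpow_pos_of_pos (by linarith) _
  have hT0 : 0 < T := mul_pos hβ hxpos
  have hTlarge : T₁ ≤ T := by
    refine hn₁ n ((le_max_right _ _).trans hn) T ?_
    rw [sub_self, abs_zero]
    positivity
  obtain ⟨g1, g2, g3⟩ := hT₁ T hTlarge
  refine ⟨i, hi, hlow, hhigh, fun a b ha hb hab => ?_⟩
  set P : ℝ := (2 : ℝ) ^ i with hP
  have hP0 : 0 < P := by positivity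
  have hTθ0 : 0 < T ^ θ := Real.rpow_pos_of_pos hT0 _
  have hTη0 : 0 < T ^ η := Real.rpow_pos_of_pos hT0 _
  have hPT : P ≤ T := by linarith
  have hTP : T / 2 ≤ P := by
    have h2 : (2 : ℝ) ^ (i + 1) = 2 * P := by rw [pow_succ]; ring
    rw [h2] at hhigh
    linarith
  set h : ℝ := P ^ η₁ with hh
  have hh0 : 0 < h := Real.rpow_pos_of_pos hP0 _
  have hhT : h ≤ T ^ η₁ := Real.rpow_le_rpow hP0.le hPT h0.le
  have hhl : 3 ≤ ρ * h := g1.trans (mul_le_mul_of_nonneg_left (Real.rpow_le_rpow (by positivity) hTP h0.le) hρ0.le)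
  have hba0 : 0 < b - a := lt_of_lt_of_le hTη0 hab
  have hdet := det (D := D i) (lo := P) (hi := (2 : ℝ) ^ (i + 1)) (h := h) (K := K * L i) hh0 (mul_nonneg hK (hL i))
    (Bad i) (hsub i hi) (hup i hi) (fun t _ _ ht => not_lt.1 ht) ⌈(b - a) / h⌉₊ a b (hlow.trans ha) (by linarith)
    (hb.trans hhigh) (by
      have := Nat.le_ceil ((b - a) / h)
      rwa [div_le_iff₀ hh0] at this)
  have hceil : (⌈(b - a) / h⌉₊ : ℝ) ≤ (b - a) / h + 1 := (Nat.ceil_lt_add_one (by positivity)).le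
  have hVab : (volume.restrict (Bad i) (Ico a b)).toReal ≤ ρ * (b - a) := by
    have hfin : volume.restrict (Bad i) (Icc (T - T ^ θ) (T + T ^ θ)) ≠ ⊤ := by
      refine ne_top_of_le_ne_top ?_ (Measure.restrict_apply_le (Bad i) _)
      rw [Real.volume_Icc]
      exact ENNReal.ofReal_ne_top
    have e1 : volume.restrict (Bad i) (Ico a b) ≤ volume.restrict (Bad i) (Icc (T - T ^ θ) (T + T ^ θ)) := by
      refine measure_mono fun t ht => ?_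
      rw [mem_Icc]
      constructor <;> linarith [ht.1, ht.2]
    calc (volume.restrict (Bad i) (Ico a b)).toReal
        ≤ (volume.restrict (Bad i) (Icc (T - T ^ θ) (T + T ^ θ))).toReal := ENNReal.toReal_mono hfin e1
      _ ≤ ρ * T ^ η := hV
      _ ≤ ρ * (b - a) := mul_le_mul_of_nonneg_left hab hρ0.le
  have h3N : 3 * (⌈(b - a) / h⌉₊ : ℝ) ≤ ρ * (b - a) + 3 := by
    have e1 : 3 * ((b - a) / h) ≤ ρ * (b - a) := by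
      rw [mul_div_assoc', div_le_iff₀ hh0]
      have := mul_le_mul_of_nonneg_right hhl hba0.le
      linarith
    linarith
  have h5 : h + 5 ≤ ρ * (b - a) := by
    have := mul_le_mul_of_nonneg_left hab hρ0.le
    linarith
  have hKL : 0 ≤ K * L i := mul_nonneg hK (hL i)
  calc D i a b ≤ K * L i * ((volume.restrict (Bad i) (Ico a b)).toReal + 3 * (⌈(b - a) / h⌉₊ : ℝ) + h + 2) := hdet
    _ ≤ K * L i * (3 * ρ * (b - a)) := by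
        apply mul_le_mul_of_nonneg_left _ hKL
        linarith
    _ = (K * (3 * ρ)) * (L i * (b - a)) := by ring
    _ ≤ ε * (L i * (b - a)) := by
        apply mul_le_mul_of_nonneg_right _ (mul_nonneg (hL i) hba0.le)
        have e1 : 3 * ρ = ε / (K + 1) := by
          rw [hρ]
          field_simp
        rw [e1, mul_div_assoc', div_le_iff₀ (by linarith)]
        nlinarith
    _ = ε * L i * (b - a) := by ring

/-- the same for countably many amplitudes -/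
theorem short_countable {K δ η₁ η θ : ℝ} (hK : 0 ≤ K) (h0 : 0 < η₁) (h1 : η₁ < η) (hθ0 : 0 < θ) (hθ1 : θ < 1)
    (hθδ : θ < η + δ) :
    ∃ s : ℝ, 0 < s ∧ s < 1 ∧ ∀ (D : ℕ → ℝ → ℝ → ℝ) (L : ℕ → ℝ) (i₀ : ℕ), (∀ i, 0 ≤ L i) →
      (∀ i : ℕ, i₀ ≤ i → ∀ a b c : ℝ, (2 : ℝ) ^ i ≤ a → a ≤ b → b ≤ c → c ≤ 2 ^ (i + 1) →
        D i a c ≤ D i a b + D i b c) →
      (∀ i : ℕ, i₀ ≤ i → ∀ a b : ℝ, (2 : ℝ) ^ i ≤ a → a ≤ b → b ≤ 2 ^ (i + 1) → D i a b ≤ K * L i * (b - a + 1)) →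
      (∀ i : ℕ, i₀ ≤ i → volume {t : ℝ | (2 : ℝ) ^ i ≤ t ∧ t ≤ 2 ^ (i + 1) ∧ 0 < D i t (t + ((2 : ℝ) ^ i) ^ η₁)} ≤
        ENNReal.ofReal (((2 : ℝ) ^ i) ^ (1 - δ))) →
      ∀ ε : ℝ, 0 < ε → ∀ ν : ℕ → ℝ, Fast ν → ∀ U : Set ℝ, U.Countable →
      ∃ E : Set ℝ, dimH E ≤ ENNReal.ofReal s ∧ ∀ x : ℝ, 1 < x → x ∉ E → ∀ β ∈ U, 0 < β → ∃ n₀ : ℕ, ∀ n : ℕ, n₀ ≤ n →
        ∃ i : ℕ, i₀ ≤ i ∧ (2 : ℝ) ^ i ≤ β * x ^ ν n - (β * x ^ ν n) ^ θ ∧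
          β * x ^ ν n + (β * x ^ ν n) ^ θ ≤ 2 ^ (i + 1) ∧
          ∀ a b : ℝ, β * x ^ ν n - (β * x ^ ν n) ^ θ ≤ a → b ≤ β * x ^ ν n + (β * x ^ ν n) ^ θ →
            (β * x ^ ν n) ^ η ≤ b - a → D i a b ≤ ε * L i * (b - a) := by
  obtain ⟨s, hs0, hs1, h⟩ := short (K := K) (δ := δ) hK h0 h1 hθ0 hθ1 hθδ
  refine ⟨s, hs0, hs1, fun D L i₀ hL hsub hup hbad ε hε ν hν U hU => ?_⟩
  have hc : Countable U := hU.to_subtype
  have hall : ∀ q : {β : U // 0 < (β : ℝ)}, _ := fun q =>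
    h D L i₀ hL hsub hup hbad ε hε ν hν ((q.1 : U) : ℝ) q.2
  choose E hE1 hE2 using hall
  refine ⟨⋃ q, E q, ?_, fun x hx hxE β hβ hβ0 => ?_⟩
  · rw [dimH_iUnion]
    exact iSup_le hE1
  · exact hE2 ⟨⟨β, hβ⟩, hβ0⟩ x hx (fun g => hxE (Set.mem_iUnion.2 ⟨_, g⟩))

end Pool.Agent.V11001.SI
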