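import Pool.Agent.V11001.SI.Short
import Pool.Agent.H965R2.SI.CountShort
import Pool.Agent.H370R2.Local

/-! Zeros in all short intervals near the powers of almost every real number, from zeros in almost all short intervals. -/

set_option autoImplicit false

open MeasureTheory Set Filter Topology

namespace Pool.Agent.V11001.SI

open Pool.Agent.V11001.KM H370

/-- the sum of the weights of the zeros of `F` with ordinate in `(a, b]` -/
noncomputable def W (F : ℂ → ℂ) (w : ℂ → ℝ) (a b : ℝ) : ℝ := ∑ s ∈ Zf F a b, w s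

lemma W_add {F : ℂ → ℂ} (hF : GoodL F) (w : ℂ → ℝ) {a b c : ℝ} (ha : 1 ≤ a) (hab : a ≤ b) (hbc : b ≤ c) :
    W F w a c = W F w a b + W F w b c := by
  classical
  unfold W
  rw [← Finset.sum_union]
  · refine Finset.sum_congr ?_ fun _ _ => rfl
    ext s
    rw [Finset.mem_union, mem_Zf hF ha, mem_Zf hF ha, mem_Zf hF (ha.trans hab)]
    constructor
    · rintro ⟨h1, h2, h3, h4, h5⟩
      by_cases h : s.im ≤ b
      · exact Or.inl ⟨h1, h2, h3, h, h5⟩
      · exact Or.inr ⟨h1, h2, not_le.1 h, h4, h5⟩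
    · rintro (⟨h1, h2, h3, h4, h5⟩ | ⟨h1, h2, h3, h4, h5⟩)
      · exact ⟨h1, h2, h3, h4.trans hbc, h5⟩
      · exact ⟨h1, h2, hab.trans_lt h3, h4, h5⟩
  · rw [Finset.disjoint_left]
    intro s hs hs'
    rw [mem_Zf hF ha] at hs
    rw [mem_Zf hF (ha.trans hab)] at hs'
    exact absurd hs.2.2.2.1 (not_le.2 hs'.2.2.1)

lemma W_le {F : ℂ → ℂ} (hF : GoodL F) {w : ℂ → ℝ} {M : ℝ}
    (hw : ∀ s : ℂ, F s = 0 → 0 < s.im → w s ≤ M * mult F s) {a b : ℝ} (ha : 1 ≤ a) :
    W F w a b ≤ M * NN F a b := by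
  unfold W
  rw [NN_eq hF ha]
  push_cast
  rw [Finset.mul_sum]
  refine Finset.sum_le_sum fun s hs => ?_
  rw [mem_Zf hF ha] at hs
  exact hw s hs.2.2.2.2 (by linarith [hs.2.2.1])

/-- an upper bound for the number of zeros in all intervals -/
lemma NN_upper {F : ℂ → ℂ} (hF : GoodL F) : ∃ C : ℝ, 0 ≤ C ∧ ∀ i : ℕ, 2 ≤ i → ∀ a b : ℝ, (2 : ℝ) ^ i ≤ a → a ≤ b →
    b ≤ 2 ^ (i + 1) → (NN F a b : ℝ) ≤ C * Real.log (2 ^ i) * (b - a + 1) := by
  obtain ⟨C, hC, hz⟩ := H370.zcount hF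
  refine ⟨3 * C, by positivity, fun i hi a b ha hab hb => ?_⟩
  set P : ℝ := (2 : ℝ) ^ i with hP
  have hP4 : 4 ≤ P := by
    calc (4 : ℝ) = 2 ^ 2 := by norm_num
      _ ≤ 2 ^ i := pow_le_pow_right₀ (by norm_num) hi
  have h2P : (2 : ℝ) ^ (i + 1) = 2 * P := by rw [pow_succ]; ring
  rw [h2P] at hb
  have hlog : 0 ≤ Real.log P := Real.log_nonneg (by linarith)
  have hstep : ∀ t : ℝ, P ≤ t → t ≤ 2 * P → (NN F t (t + 1) : ℝ) ≤ 3 * C * Real.log P := by
    intro t ht1 ht2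
    have h1 : NN F t (t + 1) ≤ NN F (t + 1 - 1) (t + 1 + 1) := NN_mono hF (by linarith) (by linarith) (by linarith)
    have h2 : (NN F t (t + 1) : ℝ) ≤ NN F (t + 1 - 1) (t + 1 + 1) := by exact_mod_cast h1
    have h3 := hz (t + 1) (by linarith)
    have h4 : Real.log (t + 1) ≤ 3 * Real.log P := by
      have hP2 : 16 ≤ P ^ 2 := by nlinarith
      have hP3 : 16 * P ≤ P ^ 3 := by
        calc 16 * P ≤ P ^ 2 * P := mul_le_mul_of_nonneg_right hP2 (by linarith)
          _ = P ^ 3 := by ring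
      have : Real.log (t + 1) ≤ Real.log (P ^ 3) := Real.log_le_log (by linarith) (by linarith)
      rw [Real.log_pow] at this
      exact_mod_cast this
    have h5 := mul_le_mul_of_nonneg_left h4 hC.le
    linarith
  -- induction over the unit steps
  have hind : ∀ n : ℕ, ∀ a : ℝ, P ≤ a → ∀ b : ℝ, a ≤ b → b ≤ 2 * P → b ≤ a + n →
      (NN F a b : ℝ) ≤ 3 * C * Real.log P * n := by
    intro n
    induction n with
    | zero =>
      intro a ha b hab hb hn
      have : b = a := by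
        push_cast at hn
        linarith
      subst this
      have h1 : NN F b b = NN F b b + NN F b b := NN_add hF (by linarith) le_rfl le_rfl
      have h2 : NN F b b = 0 := by omega
      rw [h2]
      simp
    | succ n ih =>
      intro a ha b hab hb hn
      rcases le_or_gt b (a + 1) with hle | hgt
      · have h1 : NN F a b ≤ NN F a (a + 1) := NN_mono hF (by linarith) le_rfl hle
        have h2 : (NN F a b : ℝ) ≤ NN F a (a + 1) := by exact_mod_cast h1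
        have h3 := hstep a ha (hab.trans hb)
        have h4 : 0 ≤ 3 * C * Real.log P := by positivity
        have h5 : (0 : ℝ) ≤ n := Nat.cast_nonneg n
        push_cast
        nlinarith
      · have h1 : NN F a b = NN F a (a + 1) + NN F (a + 1) b := NN_add hF (by linarith) (by linarith) hgt.le
        have h2 := ih (a + 1) (by linarith) b hgt.le hb (by push_cast at hn; linarith)
        have h3 := hstep a ha (hab.trans hb)
        rw [h1]
        push_cast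
        linarith
  have h1 := hind ⌈b - a⌉₊ a ha b hab hb (by linarith [Nat.le_ceil (b - a)])
  have h2 : (⌈b - a⌉₊ : ℝ) ≤ b - a + 1 := (Nat.ceil_lt_add_one (by linarith)).le
  refine h1.trans (mul_le_mul_of_nonneg_left h2 (by positivity))

/-- a lower bound for the number of zeros in short intervals -/
lemma NN_lower {F : ℂ → ℂ} (hF : GoodL F) {η : ℝ} (hη : 0 < η) : ∃ T₂ : ℝ, ∀ T : ℝ, T₂ ≤ T → ∀ a b : ℝ,
    T / 2 ≤ a → a ≤ 2 * T → b ≤ 2 * a → T ^ η ≤ b - a → Real.log a * (b - a) ≤ 16 * (NN F a b : ℝ) := by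
  obtain ⟨C, hC, h⟩ := H965SI.countShort F hF
  have e1 : ∀ᶠ T : ℝ in atTop, 56 * C * Real.log T ≤ T ^ η := by
    have h1 := (isLittleO_log_rpow_atTop hη).bound (show (0 : ℝ) < 1 / (56 * C + 1) by positivity)
    filter_upwards [h1, eventually_ge_atTop 1] with T h2 h3
    rw [Real.norm_of_nonneg (Real.log_nonneg h3), Real.norm_of_nonneg (by positivity), div_mul_eq_mul_div,
      le_div_iff₀ (by positivity), one_mul] at h2
    have h4 := Real.log_nonneg h3
    nlinarith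
  have e2 : ∀ᶠ T : ℝ in atTop, 28 * C ≤ Real.log (T / 2) :=
    (Real.tendsto_log_atTop.comp (tendsto_id.atTop_div_const (by norm_num : (0 : ℝ) < 2))).eventually_ge_atTop _
  have e3 : ∀ᶠ T : ℝ in atTop, 3 ≤ T ^ η := (tendsto_rpow_atTop hη).eventually_ge_atTop _
  obtain ⟨T₂, hT₂⟩ := (e1.and (e2.and (e3.and (eventually_ge_atTop 20)))).exists_forall_of_atTop
  refine ⟨T₂, fun T hT a b ha1 ha2 hb hab => ?_⟩
  obtain ⟨g1, g2, g3, g4⟩ := hT₂ T hT
  have ha0 : 10 ≤ a := by linarith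
  obtain ⟨h1, -⟩ := h a ha0 (b - a) (by linarith) (by linarith) a b le_rfl (by linarith) (by linarith) (by linarith)
  have h2 := (abs_le.1 h1).1
  have hla : Real.log (T / 2) ≤ Real.log a := Real.log_le_log (by linarith) ha1
  have hlT : Real.log a ≤ 2 * Real.log T := by
    have h3 : Real.log a ≤ Real.log (T ^ 2) := Real.log_le_log (by linarith) (by nlinarith)
    rw [Real.log_pow] at h3
    exact_mod_cast h3
  have hl0 : 0 ≤ Real.log a := Real.log_nonneg (by linarith)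
  have hba : 0 < b - a := by linarith
  have hpi : 2 * Real.pi ≤ 7 := by
    have := Real.pi_lt_d2
    linarith
  have hpi0 : 0 < 2 * Real.pi := by have := Real.pi_pos; linarith
  have h3 : (b - a) * Real.log a / 7 ≤ (b - a) * Real.log a / (2 * Real.pi) :=
    div_le_div_of_nonneg_left (mul_nonneg hba.le hl0) hpi0 hpi
  -- the error terms
  have h4 : C * (b - a) ≤ (b - a) * Real.log a / 28 := by
    have : 28 * C ≤ Real.log a := g2.trans hla
    have := mul_le_mul_of_nonneg_left this hba.le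
    linarith
  have h5 : C * Real.log a ^ 2 ≤ (b - a) * Real.log a / 28 := by
    have h6 : 28 * C * Real.log a ≤ b - a := by
      have : 28 * C * Real.log a ≤ 28 * C * (2 * Real.log T) := mul_le_mul_of_nonneg_left hlT (by positivity)
      linarith
    have := mul_le_mul_of_nonneg_right h6 hl0
    nlinarith
  have h6 : (b - a) * Real.log a / 16 ≤ (b - a) * Real.log a / 7 - (b - a) * Real.log a / 28 -
      (b - a) * Real.log a / 28 := by
    have : 0 ≤ (b - a) * Real.log a := mul_nonneg hba.le hl0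
    linarith
  nlinarith

/-- **Zeros in all short intervals near powers.** -/
theorem zeros_windows {F : ℂ → ℂ} (hF : GoodL F) (w : ℂ → ℝ) {M : ℝ} (hM : 0 ≤ M)
    (hw : ∀ s : ℂ, F s = 0 → 0 < s.im → w s ≤ M * mult F s) {η₁ η δ T₀ : ℝ} (h0 : 0 < η₁) (h1 : η₁ < η) (h2 : η < 1)
    (hδ : 0 < δ)
    (hbad : ∀ T : ℝ, T₀ ≤ T → ∀ H : ℝ, T ^ η₁ ≤ H → H ≤ T / 8 →
      volume {t : ℝ | t ∈ Icc T (2 * T) ∧ 0 < W F w t (t + H)} ≤ ENNReal.ofReal (T ^ (1 - δ))) :
    ∃ s κ : ℝ, 0 < s ∧ s < 1 ∧ 0 < κ ∧ η + κ < 1 ∧ ∀ ε : ℝ, 0 < ε → ∀ ν : ℕ → ℝ, Fast ν → ∀ U : Set ℝ, U.Countable →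
      ∃ E : Set ℝ, dimH E ≤ ENNReal.ofReal s ∧ ∀ x : ℝ, 1 < x → x ∉ E → ∀ β ∈ U, 0 < β → ∃ n₀ : ℕ, ∀ n : ℕ, n₀ ≤ n →
        ∀ a b : ℝ, β * x ^ ν n - (β * x ^ ν n) ^ (η + κ) ≤ a → b ≤ β * x ^ ν n + (β * x ^ ν n) ^ (η + κ) →
          (β * x ^ ν n) ^ η ≤ b - a → 1 ≤ a ∧ W F w a b ≤ ε * NN F a b := by
  obtain ⟨C, hC, hup⟩ := NN_upper hF
  have hη0 : 0 < η := h0.trans h1
  set κ : ℝ := min δ (1 - η) / 2 with hκ
  have hmin : 0 < min δ (1 - η) := lt_min hδ (by linarith)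
  have hκ0 : 0 < κ := by positivity
  have hκ1 : κ < δ := by
    have := min_le_left δ (1 - η)
    linarith
  have hκ2 : κ < 1 - η := by
    have := min_le_right δ (1 - η)
    linarith
  obtain ⟨s, hs0, hs1, h⟩ := short_countable (K := M * C) (δ := δ) (η₁ := η₁) (η := η) (θ := η + κ)
    (mul_nonneg hM hC) h0 h1 (by linarith) (by linarith) (by linarith)
  refine ⟨s, κ, hs0, hs1, hκ0, by linarith, fun ε hε ν hν U hU => ?_⟩
  -- large scales
  obtain ⟨i₀, hi₀⟩ : ∃ i₀ : ℕ, ∀ i : ℕ, i₀ ≤ i → T₀ ≤ (2 : ℝ) ^ i ∧ ((2 : ℝ) ^ i) ^ η₁ ≤ (2 : ℝ) ^ i / 8 ∧ 2 ≤ i := by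
    have hlim : Tendsto (fun i : ℕ => (2 : ℝ) ^ i) atTop atTop := tendsto_pow_atTop_atTop_of_one_lt (by norm_num)
    have e1 := hlim.eventually_ge_atTop T₀
    have e2 := ((tendsto_rpow_atTop (show (0 : ℝ) < 1 - η₁ by linarith)).comp hlim).eventually_ge_atTop 8
    obtain ⟨i₀, hi₀⟩ := (e1.and (e2.and (eventually_ge_atTop 2))).exists_forall_of_atTop
    refine ⟨i₀, fun i hi => ?_⟩
    obtain ⟨g1, g2, g3⟩ := hi₀ i hi
    refine ⟨g1, ?_, g3⟩
    have hP0 : (0 : ℝ) < 2 ^ i := by positivity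
    have g4 : (8 : ℝ) ≤ ((2 : ℝ) ^ i) ^ (1 - η₁) := g2
    have g5 : ((2 : ℝ) ^ i) ^ (1 - η₁) * ((2 : ℝ) ^ i) ^ η₁ = 2 ^ i := by
      rw [← Real.rpow_add hP0]
      simp
    have g6 := mul_le_mul_of_nonneg_right g4 (Real.rpow_nonneg hP0.le η₁)
    rw [g5] at g6
    linarith
  obtain ⟨E, hE1, hE2⟩ := h (fun _ a b => W F w a b) (fun i => Real.log (2 ^ i)) i₀
    (fun i => Real.log_nonneg (one_le_pow₀ (by norm_num)))
    (fun i _ a b c ha hab hbc _ => (W_add hF w ((one_le_pow₀ (by norm_num)).trans ha) hab hbc).le)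
    (fun i hi a b ha hab hb => by
      have hi2 := (hi₀ i hi).2.2
      calc W F w a b ≤ M * NN F a b := W_le hF hw ((one_le_pow₀ (by norm_num)).trans ha)
        _ ≤ M * (C * Real.log (2 ^ i) * (b - a + 1)) := mul_le_mul_of_nonneg_left (hup i hi2 a b ha hab hb) hM
        _ = M * C * Real.log (2 ^ i) * (b - a + 1) := by ring)
    (fun i hi => by
      obtain ⟨g1, g2, -⟩ := hi₀ i hi
      refine (measure_mono ?_).trans (hbad (2 ^ i) g1 _ le_rfl g2)
      rintro t ⟨ht1, ht2, ht3⟩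
      refine ⟨⟨ht1, ?_⟩, ht3⟩
      rw [pow_succ] at ht2
      linarith)
    (ε / 16) (by positivity) ν hν U hU
  refine ⟨E, hE1, fun x hx hxE β hβ hβ0 => ?_⟩
  obtain ⟨n₀, hn₀⟩ := hE2 x hx hxE β hβ hβ0
  obtain ⟨T₂, hT₂⟩ := NN_lower hF hη0
  obtain ⟨n₁, hn₁⟩ := large_of_near (θ := 0) hν hβ0 one_pos hx (max T₂ 1)
  refine ⟨max n₀ n₁, fun n hn a b ha hb hab => ?_⟩
  obtain ⟨i, hi, hlow, hhigh, hD⟩ := hn₀ n ((le_max_left _ _).trans hn)
  set T : ℝ := β * x ^ ν n with hT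
  have hxpos : 0 < x ^ ν n := Real.rpow_pos_of_pos (by linarith) _
  have hT0 : 0 < T := mul_pos hβ0 hxpos
  have hTl : max T₂ 1 ≤ T := by
    refine hn₁ n ((le_max_right _ _).trans hn) T ?_
    rw [sub_self, abs_zero]
    positivity
  have hTη0 : 0 < T ^ η := Real.rpow_pos_of_pos hT0 _
  have hTθ0 : 0 < T ^ (η + κ) := Real.rpow_pos_of_pos hT0 _
  have h3 : (2 : ℝ) ^ (i + 1) = 2 * 2 ^ i := by rw [pow_succ]; ring
  rw [h3] at hhigh
  have hPa : (2 : ℝ) ^ i ≤ a := hlow.trans ha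
  have hP1 : (1 : ℝ) ≤ 2 ^ i := one_le_pow₀ (by norm_num)
  have hD' := hD a b ha hb hab
  have hba : 0 < b - a := lt_of_lt_of_le hTη0 hab
  have hlogPa : Real.log (2 ^ i) ≤ Real.log a := Real.log_le_log (by positivity) hPa
  have hlow2 : Real.log a * (b - a) ≤ 16 * (NN F a b : ℝ) :=
    hT₂ T ((le_max_left _ _).trans hTl) a b (by linarith) (by linarith) (by linarith) hab
  refine ⟨hP1.trans hPa, ?_⟩
  calc W F w a b ≤ ε / 16 * Real.log (2 ^ i) * (b - a) := hD'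
    _ = ε / 16 * (Real.log (2 ^ i) * (b - a)) := by ring
    _ ≤ ε / 16 * (Real.log a * (b - a)) :=
        mul_le_mul_of_nonneg_left (mul_le_mul_of_nonneg_right hlogPa hba.le) (by positivity)
    _ ≤ ε / 16 * (16 * (NN F a b : ℝ)) := mul_le_mul_of_nonneg_left hlow2 (by positivity)
    _ = ε * NN F a b := by ring

end Pool.Agent.V11001.SI
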